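import Pool.Agent.P8H8.HF.Inst

set_option autoImplicit false

/-!
# Statements of the packages: small gaps at positive microscopic times
-/

namespace Pool.Agent.P8H8.PC

open Finset Filter Topology
open Pool.Agent.P8H8.HF

/-- CLUS: a lower bound for the gap when there are few points in the window. -/
def S_CLUS : Prop := ∀ (y : ℝ → ℤ → ℝ) (R : ℝ), Flow y R → ∀ (τ σ x a K Q : ℝ) (k : ℤ),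
  0 < τ → τ + Q ≤ σ → σ < R → 0 < a → 0 < Q → Q ≤ a ^ 2 / 4 → 1 ≤ a * K →
  (∀ s, τ ≤ s → s ≤ σ → |y s k - x| ≤ a / 16) →
  (∀ s, τ ≤ s → s ≤ σ → ∀ᶠ M : ℕ in atTop, ∑ i ∈ Ico (-(M : ℤ)) M, a / ((x - y s i) ^ 2 + a ^ 2) ≤ K) →
  Q * ((⌊2 * (a * K)⌋₊).factorial : ℝ) / (20 * (a * K)) ^ (⌊2 * (a * K)⌋₊ - 1) ≤ gp (y σ) k ^ 2

/-- MOV: a point does not move far in a short time. -/
def S_MOV : Prop := ∀ (y : ℝ → ℤ → ℝ) (R : ℝ), Flow y R → ∀ (τ σ x a K : ℝ) (k : ℤ),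
  0 < τ → τ ≤ σ → σ < R → 0 < a → 1 ≤ a * K → y σ k = x → (σ - τ) * (30000 * K ^ 2) ≤ 1 →
  (∀ s, τ ≤ s → s ≤ σ → ∀ᶠ M : ℕ in atTop,
    ‖∑ i ∈ Ico (-(M : ℤ)) M, ((x : ℂ) - (y s i : ℂ) - Complex.I * (a : ℂ))⁻¹‖ ≤ K) →
  ∀ s, τ ≤ s → s ≤ σ → |y s k - x| ≤ a / 16

/-- the logarithmic derivative of the heat flow -/
noncomputable def LL (τ : ℝ) (z : ℂ) : ℂ := DD 1 τ z / DD 0 τ z

/-- its second derivative in `z` -/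
noncomputable def L2 (τ : ℝ) (z : ℂ) : ℂ :=
  DD 3 τ z / DD 0 τ z - 3 * LL τ z * (DD 2 τ z / DD 0 τ z) + 2 * LL τ z ^ 3

/-- PF: partial fractions. -/
def S_PF : Prop := RiemannHypothesis → ∀ τ : ℝ, 0 < τ → τ ≤ 1 / 8 → ∀ z : ℂ, 0 < z.re →
  Tendsto (fun M : ℕ => ∑ i ∈ Ico (-(M : ℤ)) M, (z - Complex.I * (YY τ i : ℂ))⁻¹) atTop (𝓝 (LL τ z))

/-- HERG: bounds in the right half plane. -/
def S_HERG : Prop := RiemannHypothesis → ∀ τ : ℝ, 0 ≤ τ → τ ≤ 1 / 8 → ∀ z : ℂ, 0 < z.re →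
  0 ≤ (LL τ z).re ∧ ‖L2 τ z‖ ≤ 16 * (LL τ z).re / z.re ^ 2 ∧
  ∀ w : ℂ, ‖w - z‖ ≤ z.re / 2 → ‖LL τ w - LL τ z‖ ≤ 2 * (‖w - z‖ / z.re) * (LL τ z).re

/-- TRANS: the logarithmic derivative stays bounded along the flow. -/
def S_TRANS : Prop := RiemannHypothesis → ∀ σ x a K : ℝ, 0 ≤ σ → σ < 1 / 8 → 0 < a → 0 < K →
  64 * K * σ ≤ a → 1000 * σ ≤ a ^ 2 → (∀ z : ℂ, ‖z - (⟨a, x⟩ : ℂ)‖ ≤ a / 4 → ‖LL 0 z‖ ≤ K) →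
  ∀ s, 0 ≤ s → s ≤ σ → ‖LL s (⟨a, x⟩ : ℂ)‖ ≤ 2 * K

end Pool.Agent.P8H8.PC
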