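import Mathlib

set_option autoImplicit false

/-!
# Counting points from a pointwise bound
-/

open Filter Topology Set MeasureTheory

namespace Pool.Agent.P8H8.PC

/-- integral of the indicator of an interval -/
theorem ind_int (a b V1 V2 : ℝ) (hab : a ≤ b) (h1 : V1 ≤ a) (h2 : b ≤ V2) :
    IntervalIntegrable ((Set.Icc a b).indicator (fun _ => (1 : ℝ))) volume V1 V2 ∧
    b - a ≤ ∫ t in V1..V2, (Set.Icc a b).indicator (fun _ => (1 : ℝ)) t := by
  have hi : Integrable ((Set.Icc a b).indicator (fun _ => (1 : ℝ))) := by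
    rw [integrable_indicator_iff measurableSet_Icc]
    exact integrableOn_const (by simp) (by simp)
  refine ⟨hi.intervalIntegrable, ?_⟩
  rw [intervalIntegral.integral_of_le (by linarith)]
  have h3 : ∫ t in Set.Ioc a b, (Set.Icc a b).indicator (fun _ => (1 : ℝ)) t ≤
      ∫ t in Set.Ioc V1 V2, (Set.Icc a b).indicator (fun _ => (1 : ℝ)) t := by
    apply setIntegral_mono_set hi.integrableOn
    · exact Filter.Eventually.of_forall fun t =>
        Set.indicator_nonneg (fun _ _ => zero_le_one) t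
    · exact (Set.Ioc_subset_Ioc h1 h2).eventuallyLE
  refine le_trans ?_ h3
  have h4 : ∫ t in Set.Ioc a b, (Set.Icc a b).indicator (fun _ => (1 : ℝ)) t =
      ∫ t in Set.Ioc a b, (1 : ℝ) := by
    apply setIntegral_congr_fun measurableSet_Ioc
    intro t ht
    exact Set.indicator_of_mem (Set.Ioc_subset_Icc_self ht) _
  rw [h4]
  simp [hab]

/-- counting from a pointwise bound -/
theorem count_gen (S : Finset ℤ) (p : ℤ → ℝ) {δ D V1 V2 : ℝ} (f : ℝ → ℝ) (hδ : 0 ≤ δ) (hV : V1 ≤ V2)
    (hf : Continuous f) (hp : ∀ i ∈ S, V1 ≤ p i - δ ∧ p i + δ ≤ V2)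
    (hc : ∀ t : ℝ, ((S.filter (fun i => |p i - t| ≤ δ)).card : ℝ) ≤ D * f t) :
    (S.card : ℝ) * (2 * δ) ≤ D * ∫ t in V1..V2, f t := by
  have hi : ∀ i ∈ S, IntervalIntegrable ((Set.Icc (p i - δ) (p i + δ)).indicator
      (fun _ => (1 : ℝ))) volume V1 V2 ∧
      2 * δ ≤ ∫ t in V1..V2, (Set.Icc (p i - δ) (p i + δ)).indicator (fun _ => (1 : ℝ)) t := by
    intro i hi
    obtain ⟨h1, h2⟩ := hp i hi
    obtain ⟨h3, h4⟩ := ind_int (p i - δ) (p i + δ) V1 V2 (by linarith) h1 h2
    exact ⟨h3, by linarith⟩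
  have h1 : (S.card : ℝ) * (2 * δ) ≤ ∑ i ∈ S, ∫ t in V1..V2,
      (Set.Icc (p i - δ) (p i + δ)).indicator (fun _ => (1 : ℝ)) t := by
    rw [← nsmul_eq_mul, ← Finset.sum_const]
    exact Finset.sum_le_sum fun i hi' => (hi i hi').2
  rw [← intervalIntegral.integral_finsetSum (fun i hi' => (hi i hi').1)] at h1
  rw [← intervalIntegral.integral_const_mul]
  refine h1.trans ?_
  apply intervalIntegral.integral_mono_on hV
  · have h3 := IntervalIntegrable.sum S (fun i hi' => (hi i hi').1)
    have h4 : (∑ i ∈ S, (Set.Icc (p i - δ) (p i + δ)).indicator (fun _ => (1 : ℝ))) = fun t => ∑ i ∈ S,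
        (Set.Icc (p i - δ) (p i + δ)).indicator (fun _ => (1 : ℝ)) t := by
      funext t
      rw [Finset.sum_apply]
    rw [← h4]
    exact h3
  · exact (continuous_const.mul hf).intervalIntegrable _ _
  · intro t _
    refine le_trans (le_of_eq ?_) (hc t)
    rw [Finset.card_filter, Nat.cast_sum]
    apply Finset.sum_congr rfl
    intro i _
    by_cases h : |p i - t| ≤ δ
    · rw [if_pos h, Set.indicator_of_mem]
      · norm_num
      · rw [abs_le] at h
        constructor <;> linarith [h.1, h.2]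
    · rw [if_neg h, Set.indicator_of_notMem]
      · norm_num
      · intro h2
        apply h
        rw [abs_le]
        constructor <;> linarith [h2.1, h2.2]

/-- the number of bad points -/
theorem bad_abs {y : ℤ → ℝ} {T L M C : ℝ} {k m : ℕ} (hk : 1 ≤ k) (hkm : k ≤ m)
    (hT : 0 ≤ T) (hM : 0 ≤ M) (hC : 0 ≤ C) (hkC : 2 * C ≤ k) (hmL : (m : ℝ) ≤ 4 * (L * L)) (hL : 1 ≤ L)
    (bad : ℕ → ℤ → Prop) (f : ℕ → ℝ → ℝ) (S : Finset ℤ)
    (hV : T + L ≤ 2 * T - L)
    (hS : ∀ i ∈ S, T + 2 * L ≤ y i ∧ y i ≤ 2 * T - 2 * L)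
    (hSk : ∀ i ∈ S, bad k i) (hSm : ∀ i ∈ S, ¬ bad m i)
    (hf : ∀ l, k ≤ l → l ≤ m → Continuous (f l)) (hf0 : ∀ l, k ≤ l → l ≤ m → ∀ t, 0 ≤ f l t)
    (hf1 : ∀ l, k ≤ l → l ≤ m → ∀ i ∈ S, bad l i → ∀ t : ℝ, |t - y i| ≤ l / (4 * L) → 1 ≤ f l t)
    (hfi : ∀ l, k ≤ l → l ≤ m → ∫ t in (T + L)..(2 * T - L), f l t ≤ T * (C / l) ^ l)
    (hg : ∀ l, k ≤ l → l ≤ m → ∀ i ∈ S, ¬ bad l i → ∀ J : Finset ℤ, (∀ j ∈ J, |y j - y i| ≤ l / L) →
      (J.card : ℝ) ≤ M * l) :
    (S.card : ℝ) ≤ 8 * M * (T * L) * (C / k) ^ k := by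
  classical
  have hL0 : 0 < L := by linarith
  have hk0 : (0 : ℝ) < k := by exact_mod_cast hk
  obtain ⟨B, hB⟩ : ∃ B : ℕ → Finset ℤ, B = fun l => S.filter (fun i => bad l i ∧ ¬ bad (l + 1) i) := ⟨_, rfl⟩
  -- covering
  have hcov : S ⊆ (Finset.Ico k m).biUnion B := by
    intro i hi
    rw [Finset.mem_biUnion]
    by_contra hcon
    push Not at hcon
    have hall : ∀ l, k ≤ l → l ≤ m → bad l i := by
      intro l hl
      induction l, hl using Nat.le_induction with
      | base => intro _; exact hSk i hi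
      | succ n hn ih =>
        intro hnm
        by_contra hb
        apply hcon n (Finset.mem_Ico.2 ⟨hn, by omega⟩)
        rw [hB]
        exact Finset.mem_filter.2 ⟨hi, ih (by omega), hb⟩
    exact hSm i hi (hall m hkm le_rfl)
  have hcard : (S.card : ℝ) ≤ ∑ l ∈ Finset.Ico k m, ((B l).card : ℝ) := by
    have h1 := (Finset.card_le_card hcov).trans Finset.card_biUnion_le
    exact_mod_cast h1
  have hBl : ∀ l ∈ Finset.Ico k m, ((B l).card : ℝ) ≤ 4 * M * (T * L) * (C / l) ^ l := by
    intro l hl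
    rw [Finset.mem_Ico] at hl
    have hl0 : (0 : ℝ) < l := by exact_mod_cast (by omega : 0 < l)
    have hl1 : (1 : ℝ) ≤ l := by exact_mod_cast (by omega : 1 ≤ l)
    have hlm : (l : ℝ) ≤ m := by exact_mod_cast hl.2.le
    have hδ : (l : ℝ) / (4 * L) ≤ L := by
      rw [div_le_iff₀ (by positivity)]
      nlinarith
    have h1 := count_gen (B l) y (δ := l / (4 * L)) (D := M * (l + 1)) (V1 := T + L) (V2 := 2 * T - L) (f l)
      (by positivity) hV (hf l hl.1 hl.2.le) (fun i hi => by
        rw [hB] at hi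
        have hiS := (Finset.mem_filter.1 hi).1
        obtain ⟨g1, g2⟩ := hS i hiS
        constructor <;> linarith) (fun t => by
        by_cases hne : ((B l).filter (fun i => |y i - t| ≤ l / (4 * L))).Nonempty
        · obtain ⟨i0, hi0⟩ := hne
          rw [Finset.mem_filter] at hi0
          obtain ⟨hi0B, hi0t⟩ := hi0
          have hi0B' := hi0B
          rw [hB] at hi0B'
          obtain ⟨hi0S, hb1, hb2⟩ := Finset.mem_filter.1 hi0B'
          have e1 : 1 ≤ f l t := hf1 l hl.1 hl.2.le i0 hi0S hb1 t (by rw [abs_sub_comm]; exact hi0t)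
          have e2 := hg (l + 1) (by omega) (by omega) i0 hi0S hb2
            ((B l).filter (fun i => |y i - t| ≤ l / (4 * L))) (fun j hj => by
              have hjt := (Finset.mem_filter.1 hj).2
              have e3 : |y j - y i0| ≤ |y j - t| + |y i0 - t| := by
                have : y j - y i0 = (y j - t) - (y i0 - t) := by ring
                rw [this]
                exact abs_sub _ _
              have e4 : (l : ℝ) / (4 * L) + l / (4 * L) ≤ ((l + 1 : ℕ) : ℝ) / L := by
                push_cast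
                rw [← add_div, div_le_div_iff₀ (by positivity) (by positivity)]
                nlinarith
              linarith)
          push_cast at e2
          calc (((B l).filter (fun i => |y i - t| ≤ l / (4 * L))).card : ℝ) ≤ M * (l + 1) := e2
            _ = M * (l + 1) * 1 := by ring
            _ ≤ M * (l + 1) * f l t := mul_le_mul_of_nonneg_left e1 (by positivity)
        · rw [Finset.not_nonempty_iff_eq_empty] at hne
          rw [hne]
          simp only [Finset.card_empty, Nat.cast_zero]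
          exact mul_nonneg (by positivity) (hf0 l hl.1 hl.2.le t))
    have h2 : M * (l + 1) * ∫ t in (T + L)..(2 * T - L), f l t ≤ M * (l + 1) * (T * (C / l) ^ l) :=
      mul_le_mul_of_nonneg_left (hfi l hl.1 hl.2.le) (by positivity)
    have h3 := h1.trans h2
    have h4 : ((B l).card : ℝ) * (2 * (l / (4 * L))) = ((B l).card : ℝ) * l / (2 * L) := by
      field_simp
      norm_num
    rw [h4, div_le_iff₀ (by positivity)] at h3
    have h5 : M * (l + 1) * (T * (C / l) ^ l) * (2 * L) ≤ (4 * M * (T * L) * (C / l) ^ l) * l := by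
      have h6 : 0 ≤ M * T * L * (C / l) ^ l := by positivity
      have h7 : M * (l + 1) * (T * (C / l) ^ l) * (2 * L) = (M * T * L * (C / l) ^ l) * (2 * (l + 1)) := by ring
      have h8 : (4 * M * (T * L) * (C / l) ^ l) * l = (M * T * L * (C / l) ^ l) * (4 * l) := by ring
      rw [h7, h8]
      apply mul_le_mul_of_nonneg_left _ h6
      linarith
    exact le_of_mul_le_mul_right (h3.trans h5) hl0
  -- geometric series
  have hr0 : 0 ≤ C / k := by positivity
  have hr1 : C / k ≤ 1 / 2 := by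
    rw [div_le_div_iff₀ hk0 (by norm_num)]
    linarith
  have hterm : ∀ l ∈ Finset.Ico k m, (C / l) ^ l ≤ (C / k) ^ k * (1 / 2) ^ (l - k) := by
    intro l hl
    rw [Finset.mem_Ico] at hl
    have hl0 : (0 : ℝ) < l := by exact_mod_cast (by omega : 0 < l)
    have hkl : (k : ℝ) ≤ l := by exact_mod_cast hl.1
    calc (C / l) ^ l ≤ (C / k) ^ l := by
          apply pow_le_pow_left₀ (by positivity)
          exact div_le_div_of_nonneg_left hC hk0 hkl
      _ = (C / k) ^ k * (C / k) ^ (l - k) := by rw [← pow_add]; congr 1; omega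
      _ ≤ (C / k) ^ k * (1 / 2) ^ (l - k) := by
          apply mul_le_mul_of_nonneg_left _ (by positivity)
          exact pow_le_pow_left₀ hr0 hr1 _
  have hgeo : ∑ l ∈ Finset.Ico k m, ((1 : ℝ) / 2) ^ (l - k) ≤ 2 := by
    rw [Finset.sum_Ico_eq_sum_range]
    have e : ∑ i ∈ Finset.range (m - k), ((1 : ℝ) / 2) ^ (k + i - k) = ∑ i ∈ Finset.range (m - k), ((1 : ℝ) / 2) ^ i := by
      apply Finset.sum_congr rfl
      intro i _
      congr 1
      omega
    rw [e]
    have h := Summable.sum_le_tsum (f := fun i : ℕ => ((1 : ℝ) / 2) ^ i) (Finset.range (m - k))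
      (fun i _ => by positivity) (summable_geometric_two)
    rw [tsum_geometric_two] at h
    exact h
  calc (S.card : ℝ) ≤ ∑ l ∈ Finset.Ico k m, ((B l).card : ℝ) := hcard
    _ ≤ ∑ l ∈ Finset.Ico k m, 4 * M * (T * L) * (C / l) ^ l := Finset.sum_le_sum hBl
    _ ≤ ∑ l ∈ Finset.Ico k m, 4 * M * (T * L) * ((C / k) ^ k * (1 / 2) ^ (l - k)) :=
        Finset.sum_le_sum fun l hl => mul_le_mul_of_nonneg_left (hterm l hl) (by positivity)
    _ = 4 * M * (T * L) * (C / k) ^ k * ∑ l ∈ Finset.Ico k m, ((1 : ℝ) / 2) ^ (l - k) := by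
        rw [Finset.mul_sum]
        apply Finset.sum_congr rfl
        intro l _
        ring
    _ ≤ 4 * M * (T * L) * (C / k) ^ k * 2 := mul_le_mul_of_nonneg_left hgeo (by positivity)
    _ = 8 * M * (T * L) * (C / k) ^ k := by ring

end Pool.Agent.P8H8.PC
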