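import Pool.Agent.P8H8.PC.NTb

set_option autoImplicit false

/-!
# The logarithmic derivative at the height `k / log T`: large deviations
-/

open Complex Filter Topology Set MeasureTheory

namespace Pool.Agent.P8H8.PC

open SP

lemma rhs_of (RH : RiemannHypothesis) : RHs := by
  intro s h1 h2 h3
  apply RH s h3
  · rintro ⟨n, hn⟩
    rw [hn] at h1
    simp at h1
    have : (0 : ℝ) ≤ n := Nat.cast_nonneg n
    linarith
  · intro h
    rw [h] at h2
    simp at h2

lemma rat_small {z : ℂ} (hz : 10 ≤ z.im) : 4 * z ^ 2 - 1 ≠ 0 ∧ ‖8 * z / (4 * z ^ 2 - 1)‖ ≤ 1 := by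
  have h1 : 10 ≤ ‖z‖ := hz.trans ((le_abs_self _).trans (Complex.abs_im_le_norm z))
  have h2 : 4 * ‖z‖ ^ 2 - 1 ≤ ‖4 * z ^ 2 - 1‖ := by
    have h3 := norm_sub_norm_le (4 * z ^ 2) 1
    rw [norm_mul, norm_pow, norm_one] at h3
    have h4 : ‖(4 : ℂ)‖ = 4 := by norm_num
    rw [h4] at h3
    exact h3
  have h5 : 0 < ‖4 * z ^ 2 - 1‖ := by nlinarith
  refine ⟨norm_pos_iff.1 h5, ?_⟩
  rw [norm_div, norm_mul]
  have h4 : ‖(8 : ℂ)‖ = 8 := by norm_num
  rw [h4, div_le_one h5]
  nlinarith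

/-- the logarithmic derivative at the height `k / log T` is large only rarely -/
theorem nt (RH : RiemannHypothesis) : ∃ M C T0 : ℝ, 1 ≤ M ∧ 1 ≤ C ∧ 100 ≤ T0 ∧ ∀ T : ℝ, T0 ≤ T →
    ∀ k : ℕ, 1 ≤ k → 16 * (k : ℝ) ≤ Real.log T → ∃ f : ℝ → ℝ, Continuous f ∧ (∀ t, 0 ≤ f t) ∧
      (∀ t, T + Real.log T ≤ t → t ≤ 2 * T - Real.log T →
        M * Real.log T < ‖LL 0 (⟨k / Real.log T, t⟩ : ℂ)‖ → 1 ≤ f t) ∧
      ∫ t in (T + Real.log T)..(2 * T - Real.log T), f t ≤ T * (C / k) ^ k := by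
  have hRH := rhs_of RH
  obtain ⟨C1, T1, hC1, hT1, h1⟩ := Lam_bound hRH
  obtain ⟨C2, T2, hC2, hT2, h2⟩ := Yk_bound hRH (1 / 4) (by norm_num) (by norm_num)
  obtain ⟨C3, T3, hC3, hT3, h3⟩ := leb_momW (1 / 4) (by norm_num) (by norm_num)
  refine ⟨1 + C1 + 3 * C2, 12 * C3 + 1, 100 + T1 + T2 + T3, by linarith, by linarith, by linarith,
    fun T hT k hk hkL => ?_⟩
  have hT100 : 100 ≤ T := by linarith
  have hk0 : (0 : ℝ) < k := by exact_mod_cast hk
  have hk1 : (1 : ℝ) ≤ k := by exact_mod_cast hk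
  have hL : 0 < Real.log T := Real.log_pos (by linarith)
  have hL1 : 1 ≤ Real.log T := by linarith
  have hLT : Real.log T ≤ T / 2 := by
    have h4 := Real.add_one_le_exp (T / 4)
    have h5 : Real.log T ≤ T / 2 := by
      have h6 := Real.log_le_sub_one_of_pos (x := T / 4) (by linarith)
      have h7 : Real.log T = Real.log (T / 4) + Real.log 4 := by
        rw [← Real.log_mul (by positivity) (by norm_num)]
        congr 1
        ring
      have h8 : Real.log 4 ≤ 2 := by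
        have := Real.log_two_lt_d9
        have h9 : Real.log 4 = 2 * Real.log 2 := by
          rw [show (4 : ℝ) = 2 ^ 2 by norm_num, Real.log_pow]; norm_num
        linarith
      linarith
    exact h5
  have hlp := MkB.ell_pos (κ := 1 / 4) (by norm_num) (by linarith : (10 : ℝ) ≤ T) hk
  obtain ⟨A, hA⟩ : ∃ A : ℝ → ℝ, A = fun t => ‖Q1 (1 / 4) T k t‖ ^ (2 * k) := ⟨_, rfl⟩
  obtain ⟨B, hB⟩ : ∃ B : ℝ → ℝ, B = fun t => ‖Q2 (1 / 4) k T k t‖ ^ (2 * k) := ⟨_, rfl⟩
  have hAc : Continuous A := by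
    rw [hA]
    exact (QW_cont T (ell (1 / 4) T k) (W1 (ell (1 / 4) T k))).norm.pow _
  have hBc : Continuous B := by
    rw [hB]
    exact (QW_cont T (ell (1 / 4) T k) (W2 k T (ell (1 / 4) T k))).norm.pow _
  refine ⟨fun t => A t + B t, hAc.add hBc, fun t => by rw [hA, hB]; positivity, ?_, ?_⟩
  · intro t ht1 ht2 hlt
    obtain ⟨g1, g2⟩ := h1 T (by linarith) t ht1 ht2 k hk hkL
    have g3 := h2 T (by linarith) t ht1 ht2 k hk
    obtain ⟨z, hz⟩ : ∃ z : ℂ, z = ⟨k / Real.log T, t⟩ := ⟨_, rfl⟩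
    have hzim : z.im = t := by rw [hz]
    have e1 : (1 / 2 + z : ℂ) = ⟨1 / 2 + k / Real.log T, t⟩ := by
      rw [hz]
      apply Complex.ext
      · simp
      · simp
    obtain ⟨g4, g5⟩ := rat_small (z := z) (by rw [hzim]; linarith)
    have g6 := LL_zero (z := z) (by rw [hzim]; linarith) (by rw [e1]; exact g1) g4
    rw [e1] at g6
    rw [← hz] at hlt
    have g7 : ‖LL 0 z‖ ≤ 1 + Real.log T * (C1 + C2 * (1 + ‖Q1 (1 / 4) T k t‖ + ‖Q2 (1 / 4) k T k t‖)) := by
      rw [g6]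
      refine (norm_add_le _ _).trans (add_le_add g5 (g2.trans ?_))
      apply mul_le_mul_of_nonneg_left _ hL.le
      linarith
    have hn1 := norm_nonneg (Q1 (1 / 4) T k t)
    have hn2 := norm_nonneg (Q2 (1 / 4) k T k t)
    by_contra hcon
    rw [not_le] at hcon
    have hA0 : 0 ≤ A t := by rw [hA]; positivity
    have hB0 : 0 ≤ B t := by rw [hB]; positivity
    have hA1 : ‖Q1 (1 / 4) T k t‖ ≤ 1 := by
      by_contra h
      rw [not_le] at h
      have : 1 ≤ A t := by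
        rw [hA]
        exact one_le_pow₀ h.le
      simp only at hcon
      linarith
    have hB1 : ‖Q2 (1 / 4) k T k t‖ ≤ 1 := by
      by_contra h
      rw [not_le] at h
      have : 1 ≤ B t := by
        rw [hB]
        exact one_le_pow₀ h.le
      simp only at hcon
      linarith
    have g8 : ‖LL 0 z‖ ≤ (1 + C1 + 3 * C2) * Real.log T := by
      refine g7.trans ?_
      have : Real.log T * (C1 + C2 * (1 + ‖Q1 (1 / 4) T k t‖ + ‖Q2 (1 / 4) k T k t‖)) ≤
          Real.log T * (C1 + C2 * 3) := by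
        apply mul_le_mul_of_nonneg_left _ hL.le
        have : C2 * (1 + ‖Q1 (1 / 4) T k t‖ + ‖Q2 (1 / 4) k T k t‖) ≤ C2 * 3 :=
          mul_le_mul_of_nonneg_left (by linarith) hC2.le
        linarith
      nlinarith
    linarith
  · have hV : T + Real.log T ≤ 2 * T - Real.log T := by linarith
    rw [intervalIntegral.integral_add (hAc.intervalIntegrable _ _) (hBc.intervalIntegrable _ _)]
    have i1 := h3 T (by linarith) k hk (W1 (ell (1 / 4) T k)) (MkB.W1_cont _)
      (fun u => (MkB.W1_norm hlp u).trans (by norm_num)) (T + Real.log T) (2 * T - Real.log T)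
      (by linarith) hV (by linarith)
    have i2 := h3 T (by linarith) k hk (W2 k T (ell (1 / 4) T k)) (YaB.W2_cont _ _ _)
      (fun u => (YaB.W2_norm hk0 hL hlp u).trans (by norm_num)) (T + Real.log T) (2 * T - Real.log T)
      (by linarith) hV (by linarith)
    have i3 : ∫ t in (T + Real.log T)..(2 * T - Real.log T), A t ≤ 6 * T * (C3 / k) ^ k := by
      rw [hA]; exact i1
    have i4 : ∫ t in (T + Real.log T)..(2 * T - Real.log T), B t ≤ 6 * T * (C3 / k) ^ k := by
      rw [hB]; exact i2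
    have i5 : (12 : ℝ) * (C3 / k) ^ k ≤ ((12 * C3 + 1) / k) ^ k := by
      calc (12 : ℝ) * (C3 / k) ^ k ≤ 12 ^ k * (C3 / k) ^ k := by
            apply mul_le_mul_of_nonneg_right _ (by positivity)
            calc (12 : ℝ) = 12 ^ 1 := by norm_num
              _ ≤ 12 ^ k := pow_le_pow_right₀ (by norm_num) hk
        _ = (12 * C3 / k) ^ k := by rw [← mul_pow]; congr 1; ring
        _ ≤ ((12 * C3 + 1) / k) ^ k := by
            apply pow_le_pow_left₀ (by positivity)
            apply div_le_div_of_nonneg_right _ hk0.le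
            linarith
    calc (∫ t in (T + Real.log T)..(2 * T - Real.log T), A t) +
          ∫ t in (T + Real.log T)..(2 * T - Real.log T), B t
        ≤ 6 * T * (C3 / k) ^ k + 6 * T * (C3 / k) ^ k := add_le_add i3 i4
      _ = T * (12 * (C3 / k) ^ k) := by ring
      _ ≤ T * ((12 * C3 + 1) / k) ^ k := mul_le_mul_of_nonneg_left i5 (by linarith)

end Pool.Agent.P8H8.PC
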