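import Pool.Agent.P8H8.PC.Good
import Pool.Agent.P8H8.PC.BadA
import Pool.Agent.P8H8.PC.NTc

set_option autoImplicit false

/-!
# The number of zeros at bad places
-/

namespace Pool.Agent.P8H8.PC

open Filter Topology MeasureTheory
open Pool.Agent.P8H8.HF

lemma top_small {C : ℝ} (hC : 1 ≤ C) : ∀ᶠ T : ℝ in atTop, 1 ≤ ⌊Real.log T / 16⌋₊ ∧
    (T * (C / (⌊Real.log T / 16⌋₊ : ℝ)) ^ ⌊Real.log T / 16⌋₊ < (⌊Real.log T / 16⌋₊ : ℝ) / (2 * Real.log T)) := by
  obtain ⟨A, hA⟩ : ∃ A, A = 35 * Real.exp 17 * C := ⟨_, rfl⟩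
  have hA0 : 0 < A := by rw [hA]; positivity
  filter_upwards [Real.tendsto_log_atTop.eventually_ge_atTop (16 * (A + 1) + 300), eventually_gt_atTop 0] with T hT hT0
  have hL0 : 0 < Real.log T := by linarith
  obtain ⟨m, hm⟩ : ∃ m, m = ⌊Real.log T / 16⌋₊ := ⟨_, rfl⟩
  rw [← hm]
  have h1 : (m : ℝ) ≤ Real.log T / 16 := by rw [hm]; exact Nat.floor_le (by positivity)
  have h2 : Real.log T / 16 < m + 1 := by rw [hm]; exact Nat.lt_floor_add_one _
  have hmA : A ≤ m := by linarith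
  have hm17 : Real.log T ≤ 17 * m := by linarith
  have hm0 : (0 : ℝ) < m := by linarith
  have hm1 : 1 ≤ m := by exact_mod_cast hm0
  refine ⟨hm1, ?_⟩
  have h3 : T ≤ Real.exp 17 ^ m := by
    rw [← Real.exp_nat_mul]
    calc T = Real.exp (Real.log T) := (Real.exp_log hT0).symm
      _ ≤ Real.exp (m * 17) := Real.exp_le_exp.2 (by linarith)
  have h4 : Real.exp 17 * (C / m) ≤ 1 / 35 := by
    rw [mul_div_assoc', div_le_div_iff₀ hm0 (by norm_num)]
    rw [hA] at hmA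
    linarith
  calc T * (C / (m : ℝ)) ^ m ≤ Real.exp 17 ^ m * (C / m) ^ m := by
        apply mul_le_mul_of_nonneg_right h3
        positivity
    _ = (Real.exp 17 * (C / m)) ^ m := by rw [mul_pow]
    _ ≤ (1 / 35 : ℝ) ^ m := pow_le_pow_left₀ (by positivity) h4 m
    _ ≤ (1 / 35 : ℝ) ^ 1 := pow_le_pow_of_le_one (by norm_num) (by norm_num) hm1
    _ < (m : ℝ) / (2 * Real.log T) := by
        rw [pow_one, div_lt_div_iff₀ (by norm_num) (by positivity)]
        linarith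

theorem badB (hP : S_PF) (hH : S_HERG) (hTr : S_TRANS) (RH : RiemannHypothesis) : ∃ M C : ℝ, 1 ≤ M ∧ 1 ≤ C ∧
    ∀ (B : ℝ) (k : ℕ), 1 ≤ k → 2 * C ≤ k → 128 * M * B ≤ k → 1000 * B ≤ k ^ 2 →
    ∀ᶠ T : ℝ in atTop, ∀ σ : ℝ, 0 < σ → σ * Real.log T ^ 2 ≤ B → ∀ S : Finset ℤ,
    (∀ i ∈ S, T + 2 * Real.log T ≤ YY σ i ∧ YY σ i ≤ 2 * T - 2 * Real.log T ∧ ¬ good M T k (YY σ i)) →
    (S.card : ℝ) ≤ 80 * M * (T * Real.log T) * (C / k) ^ k := by
  obtain ⟨M, C, T0, hM, hC, hT0, hnt⟩ := nt RH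
  refine ⟨M, C, hM, hC, fun B k hk hkC hkB hkB2 => ?_⟩
  have hlog : ∀ᶠ T : ℝ in atTop, Real.log T ≤ T / 10 := by
    have h1 := Real.isLittleO_log_id_atTop.bound (show (0 : ℝ) < 1 / 10 by norm_num)
    filter_upwards [h1, eventually_ge_atTop 1] with T hT hT1
    rw [Real.norm_eq_abs, Real.norm_eq_abs, abs_of_nonneg (Real.log_nonneg hT1)] at hT
    simp only [id] at hT
    rw [abs_of_pos (by linarith)] at hT
    linarith
  filter_upwards [top_small hC, hlog, eventually_ge_atTop T0,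
    Real.tendsto_log_atTop.eventually_ge_atTop (16 * (k + 1) + 8 * |B| + 10)] with T hTm hTl hTT hTL σ hσ hσB S hS
  obtain ⟨hm1, hmT⟩ := hTm
  obtain ⟨m, hm⟩ : ∃ m, m = ⌊Real.log T / 16⌋₊ := ⟨_, rfl⟩
  rw [← hm] at hm1 hmT
  obtain ⟨L, hLd⟩ : ∃ L, L = Real.log T := ⟨_, rfl⟩
  have hk0 : (0 : ℝ) < k := by exact_mod_cast hk
  have hB0 : 0 ≤ |B| := abs_nonneg B
  rw [← hLd] at hTl hTL hσB hS hmT ⊢
  have hL1 : 1 ≤ L := by linarith
  have hL0 : 0 < L := by linarith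
  have hT100 : 100 ≤ T := hT0.trans hTT
  have h1 : (m : ℝ) ≤ L / 16 := by rw [hm, ← hLd]; exact Nat.floor_le (by positivity)
  have h2 : L / 16 < m + 1 := by rw [hm, ← hLd]; exact Nat.lt_floor_add_one _
  have hkm : k ≤ m := by
    have : (k : ℝ) ≤ m := by linarith
    exact_mod_cast this
  have hσ8 : σ < 1 / 8 := by
    have h3 : σ * L ^ 2 ≤ |B| := hσB.trans (le_abs_self B)
    have h4 : 8 * |B| < L := by linarith
    by_contra hcon
    rw [not_lt] at hcon
    nlinarith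
  have hlk : ∀ l : ℕ, ∃ f : ℝ → ℝ, k ≤ l → l ≤ m → Continuous f ∧ (∀ t, 0 ≤ f t) ∧
      (∀ t, T + L ≤ t → t ≤ 2 * T - L → M * L < ‖LL 0 (⟨l / L, t⟩ : ℂ)‖ → 1 ≤ f t) ∧
      ∫ t in (T + L)..(2 * T - L), f t ≤ T * (C / l) ^ l := by
    intro l
    by_cases h : k ≤ l ∧ l ≤ m
    · have hlm : (l : ℝ) ≤ m := by exact_mod_cast h.2
      obtain ⟨f, hf⟩ := hnt T hTT l (by omega) (by rw [← hLd]; linarith)
      rw [← hLd] at hf
      exact ⟨f, fun _ _ => hf⟩
    · exact ⟨fun _ => 0, fun h3 h4 => absurd ⟨h3, h4⟩ h⟩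
  choose f hf using hlk
  -- bad implies large
  have hfar : ∀ l, k ≤ l → l ≤ m → ∀ x : ℝ, T + 2 * L ≤ x → x ≤ 2 * T - 2 * L → ¬ good M T l x →
      ∀ t : ℝ, |t - x| ≤ l / (4 * L) → 1 ≤ f l t := by
    intro l hl1 hl2 x hx1 hx2 hb t ht
    have hlm : (l : ℝ) ≤ m := by exact_mod_cast hl2
    have h3 : (l : ℝ) / (4 * L) ≤ 1 := by
      rw [div_le_one (by positivity)]
      linarith
    have h4 := abs_le.1 (ht.trans h3)
    apply (hf l hl1 hl2).2.2.1 t (by linarith [h4.1]) (by linarith [h4.2])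
    by_contra hcon
    rw [not_lt] at hcon
    apply hb
    unfold good
    rw [← hLd]
    exact ⟨t, ht, hcon⟩
  -- every place is good at the level m
  have hgm : ∀ x : ℝ, T + 2 * L ≤ x → x ≤ 2 * T - 2 * L → good M T m x := by
    intro x hx1 hx2
    by_contra hb
    have hm0 : (0 : ℝ) < m := by exact_mod_cast hm1
    have hδ : (m : ℝ) / (4 * L) ≤ 1 := by
      rw [div_le_one (by positivity)]
      linarith
    have hδ0 : 0 < (m : ℝ) / (4 * L) := by positivity
    obtain ⟨g1, g2, g3, g4⟩ := hf m hkm le_rfl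
    have h5 : ∫ t in (x - m / (4 * L))..(x + m / (4 * L)), (1 : ℝ) ≤
        ∫ t in (x - m / (4 * L))..(x + m / (4 * L)), f m t := by
      apply intervalIntegral.integral_mono_on (by linarith) (by simp) (g1.intervalIntegrable _ _)
      intro t ht
      exact hfar m hkm le_rfl x hx1 hx2 hb t (by rw [abs_le]; constructor <;> linarith [ht.1, ht.2])
    rw [intervalIntegral.integral_const, smul_eq_mul, mul_one] at h5
    have h6 : ∫ t in (x - m / (4 * L))..(x + m / (4 * L)), f m t ≤ ∫ t in (T + L)..(2 * T - L), f m t := by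
      apply intervalIntegral.integral_mono_interval
      · linarith
      · linarith
      · linarith
      · exact Filter.Eventually.of_forall fun t => g2 t
      · exact g1.intervalIntegrable _ _
    have h7 : (x + m / (4 * L)) - (x - m / (4 * L)) = m / (2 * L) := by
      field_simp
      ring
    rw [h7] at h5
    linarith
  have h10 := bad_abs (y := YY σ) (T := T) (L := L) (M := 10 * M) (C := C) (k := k) (m := m) hk hkm (by linarith)
    (by linarith) (by linarith) hkC (by nlinarith) hL1 (fun l i => ¬ good M T l (YY σ i)) f S (by linarith)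
    (fun i hi => ⟨(hS i hi).1, (hS i hi).2.1⟩) (fun i hi => (hS i hi).2.2)
    (fun i hi => by
      simp only [not_not]
      exact hgm _ (hS i hi).1 (hS i hi).2.1)
    (fun l hl1 hl2 => (hf l hl1 hl2).1) (fun l hl1 hl2 => (hf l hl1 hl2).2.1)
    (fun l hl1 hl2 i hi hb t ht => hfar l hl1 hl2 _ (hS i hi).1 (hS i hi).2.1 hb t ht)
    (fun l hl1 hl2 => (hf l hl1 hl2).2.2.2)
    (fun l hl1 hl2 i hi hb J hJ => by
      simp only [not_not] at hb
      have hkl : (k : ℝ) ≤ l := by exact_mod_cast hl1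
      have e1 : 128 * M * (σ * Real.log T ^ 2) ≤ l := by
        rw [← hLd]
        have : 128 * M * (σ * L ^ 2) ≤ 128 * M * B := mul_le_mul_of_nonneg_left hσB (by positivity)
        linarith
      have e2 : 1000 * (σ * Real.log T ^ 2) ≤ l ^ 2 := by
        rw [← hLd]
        have : (k : ℝ) ^ 2 ≤ l ^ 2 := pow_le_pow_left₀ hk0.le hkl 2
        linarith
      exact good_card hP hH hTr RH hM (by rw [← hLd]; exact hL1) (by omega) hσ hσ8 e1 e2 hb J
        (fun j hj => by rw [← hLd]; exact hJ j hj))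
  refine h10.trans (le_of_eq ?_)
  ring

end Pool.Agent.P8H8.PC
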