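import Pool.Agent.P8H8.PC.BadB
import Pool.Agent.P8H8.HF.Late

set_option autoImplicit false

/-!
# Small gaps up to the height `T`
-/

namespace Pool.Agent.P8H8.PC

open Filter Topology
open Pool.Agent.P8H8.HF

lemma GG_nonneg (RH : RiemannHypothesis) {τ : ℝ} (h0 : 0 ≤ τ) (h1 : τ ≤ 1 / 8) (n : ℕ) : 0 ≤ GG τ n := by
  rcases h0.eq_or_lt with h | h
  · rw [← h, GG_zero]
    exact (SG.ord_pos (by omega)).le
  · rw [GG_pos_eq h]
    exact (en_pos (ZZ_LF RH h0 h1) n).le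

/-- index and position -/
lemma pos_idx (RH : RiemannHypothesis) {K η : ℝ} (hK : 0 < K) (hη : 0 < η) (hη1 : η ≤ 1 / 100) :
    ∀ᶠ T : ℝ in atTop, ∀ τ : ℝ, 0 ≤ τ → τ * Real.log T ^ 2 ≤ K → ∀ n : ℕ,
      (GG τ n ≤ 19 / 10 * T → (n : ℝ) ≤ 2 * MT T) ∧
      (6 / 10 * T ≤ GG τ n → GG τ n ≤ 19 / 10 * T → |lam T * GG τ n - n| ≤ 4 * η * MT T) := by
  filter_upwards [count_unif RH K η hK hη (by linarith), time_ok hK, lam_tendsto.eventually_ge_atTop 1,
    MT_tendsto.eventually_ge_atTop 1000, eventually_ge_atTop 1] with T g1 g2 g3 g4 g5 τ h0 hτ n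
  obtain ⟨t1, -, -⟩ := g2 τ h0 hτ
  have hlam0 : 0 < lam T := by linarith
  have hmono := GG_mono RH h0 t1.le
  have hMT := MT_eq T
  have hupper : GG τ n ≤ 19 / 10 * T → (n : ℝ) ≤ 2 * MT T := by
    intro h
    by_contra hcon
    rw [not_le] at hcon
    obtain ⟨N, hN⟩ : ∃ N, N = ⌊2 * MT T⌋₊ := ⟨_, rfl⟩
    have hN1 : (N : ℝ) ≤ 2 * MT T := by rw [hN]; exact Nat.floor_le (by linarith)
    have hN2 : 2 * MT T - 1 < N := by
      have := Nat.lt_floor_add_one (2 * MT T)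
      rw [← hN] at this
      linarith
    have hNn : N ≤ n := by
      have : (N : ℝ) < n := by linarith
      exact_mod_cast this.le
    obtain ⟨c1, c2⟩ := g1 τ h0 hτ N (by linarith) hN1
    rw [abs_le] at c1
    have h2 : 0 ≤ lam T * GG τ 0 := mul_nonneg hlam0.le (GG_nonneg RH h0 t1.le 0)
    have h3 : lam T * GG τ N ≤ lam T * (19 / 10 * T) := mul_le_mul_of_nonneg_left ((hmono hNn).trans h) hlam0.le
    have h4 : lam T * (19 / 10 * T) = 19 / 10 * MT T := by rw [hMT]; ring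
    nlinarith [c1.1]
  refine ⟨hupper, fun h1 h2 => ?_⟩
  have hn2 := hupper h2
  have hn1 : MT T / 2 ≤ n := by
    by_contra hcon
    rw [not_le] at hcon
    obtain ⟨N, hN⟩ : ∃ N, N = ⌈MT T / 2⌉₊ := ⟨_, rfl⟩
    have hN1 : MT T / 2 ≤ N := by rw [hN]; exact Nat.le_ceil _
    have hN2 : (N : ℝ) < MT T / 2 + 1 := by rw [hN]; exact Nat.ceil_lt_add_one (by linarith)
    have hNn : n ≤ N := by
      have : (n : ℝ) ≤ N := by linarith
      exact_mod_cast this
    obtain ⟨c1, c2⟩ := g1 τ h0 hτ N hN1 (by linarith)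
    rw [abs_le] at c1
    have h3 : lam T * (6 / 10 * T) ≤ lam T * GG τ N := mul_le_mul_of_nonneg_left (h1.trans (hmono hNn)) hlam0.le
    have h4 : lam T * (6 / 10 * T) = 6 / 10 * MT T := by rw [hMT]; ring
    nlinarith [c1.2]
  obtain ⟨c1, c2⟩ := g1 τ h0 hτ n hn1 hn2
  have h3 : 0 ≤ lam T * GG τ 0 := mul_nonneg hlam0.le (GG_nonneg RH h0 t1.le 0)
  rw [abs_le] at c1 ⊢
  constructor <;> nlinarith [c1.1, c1.2]

/-- few zeros in short intervals -/
lemma near_card (RH : RiemannHypothesis) {K η : ℝ} (hK : 0 < K) (hη : 0 < η) :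
    ∀ᶠ X : ℝ in atTop, ∀ τ : ℝ, 0 ≤ τ → τ * Real.log X ^ 2 ≤ K → ∀ x : ℝ, X ≤ x → x + 2 * Real.log X ≤ 21 / 10 * X →
      ∀ S : Finset ℕ, (∀ n ∈ S, x ≤ GG τ n ∧ GG τ n ≤ x + 2 * Real.log X) → (S.card : ℝ) ≤ η * (X * Real.log X) := by
  obtain ⟨η', hη'⟩ : ∃ η', η' = min (1 / 100) (η / 40) := ⟨_, rfl⟩
  have hη'0 : 0 < η' := by rw [hη']; positivity
  have hη'1 : η' ≤ 1 / 100 := by rw [hη']; exact min_le_left _ _
  have hη'2 : η' ≤ η / 40 := by rw [hη']; exact min_le_right _ _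
  have hscale : Tendsto (fun X : ℝ => 6 / 5 * X) atTop atTop := tendsto_id.const_mul_atTop (by norm_num)
  have h1 := hscale.eventually (pos_idx RH (K := 2 * K) (by positivity) hη'0 hη'1)
  have hlogl : ∀ᶠ X : ℝ in atTop, Real.log X ≤ η / 10 * X := by
    have h2 := Real.isLittleO_log_id_atTop.bound (show 0 < η / 10 by positivity)
    filter_upwards [h2, eventually_ge_atTop 1] with X hX hX1
    rw [Real.norm_eq_abs, Real.norm_eq_abs, abs_of_nonneg (Real.log_nonneg hX1)] at hX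
    simp only [id] at hX
    rwa [abs_of_pos (by linarith)] at hX
  filter_upwards [h1, hlogl, Real.tendsto_log_atTop.eventually_ge_atTop (10 + 10 / η), eventually_ge_atTop 1] with
    X g1 g2 g3 g4 τ h0 hτ x hx1 hx2 S hS
  obtain ⟨L, hL⟩ : ∃ L, L = Real.log X := ⟨_, rfl⟩
  rw [← hL] at g2 g3 hτ hx2 hS ⊢
  have hη10 : 0 < 10 / η := by positivity
  have hL10 : 10 ≤ L := by linarith
  have hL0 : 0 < L := by linarith
  have hX0 : 0 < X := by linarith
  have hlog65 : Real.log (6 / 5 * X) ≤ L + 1 := by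
    rw [Real.log_mul (by norm_num) hX0.ne', ← hL]
    have := Real.log_le_sub_one_of_pos (show (0 : ℝ) < 6 / 5 by norm_num)
    linarith
  have hlog65' : 0 ≤ Real.log (6 / 5 * X) := Real.log_nonneg (by linarith)
  have hτ' : τ * Real.log (6 / 5 * X) ^ 2 ≤ 2 * K := by
    have e1 : Real.log (6 / 5 * X) ^ 2 ≤ 2 * L ^ 2 := by nlinarith
    calc τ * Real.log (6 / 5 * X) ^ 2 ≤ τ * (2 * L ^ 2) := mul_le_mul_of_nonneg_left e1 h0
      _ = 2 * (τ * L ^ 2) := by ring
      _ ≤ 2 * K := by linarith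
  have hlamX : lam (6 / 5 * X) ≤ L / 5 := by
    unfold lam
    have hpi := Real.pi_gt_three
    rw [div_le_div_iff₀ (by positivity) (by norm_num)]
    nlinarith
  have hlamX0 : 0 ≤ lam (6 / 5 * X) := by unfold lam; positivity
  have hMX : MT (6 / 5 * X) ≤ 1 / 4 * (X * L) := by
    rw [MT_eq]
    have : 6 / 5 * X * lam (6 / 5 * X) ≤ 6 / 5 * X * (L / 5) := mul_le_mul_of_nonneg_left hlamX (by positivity)
    nlinarith [mul_pos hX0 hL0]
  have hidx : ∀ n ∈ S, |lam (6 / 5 * X) * GG τ n - n| ≤ η' * (X * L) := by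
    intro n hn
    obtain ⟨a1, a2⟩ := hS n hn
    have h3 := (g1 τ h0 hτ' n).2 (by linarith) (by linarith)
    refine h3.trans ?_
    have : 4 * η' * MT (6 / 5 * X) ≤ 4 * η' * (1 / 4 * (X * L)) := mul_le_mul_of_nonneg_left hMX (by positivity)
    linarith
  rcases S.eq_empty_or_nonempty with hS0 | hS0
  · rw [hS0]
    simp
    positivity
  · have hsub : S ⊆ Finset.Icc (S.min' hS0) (S.max' hS0) := fun n hn =>
      Finset.mem_Icc.2 ⟨Finset.min'_le S n hn, Finset.le_max' S n hn⟩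
    have hcard := Finset.card_le_card hsub
    rw [Nat.card_Icc] at hcard
    have hmin := Finset.min'_mem S hS0
    have hmax := Finset.max'_mem S hS0
    have hle := Finset.min'_le S _ hmax
    obtain ⟨a, ha⟩ : ∃ a, a = S.min' hS0 := ⟨_, rfl⟩
    obtain ⟨b, hb⟩ : ∃ b, b = S.max' hS0 := ⟨_, rfl⟩
    rw [← ha] at hmin hcard hle
    rw [← hb] at hmax hcard hle
    have i1 := abs_le.1 (hidx a hmin)
    have i2 := abs_le.1 (hidx b hmax)
    obtain ⟨a1, a2⟩ := hS a hmin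
    obtain ⟨b1, b2⟩ := hS b hmax
    have h4 : lam (6 / 5 * X) * GG τ b - lam (6 / 5 * X) * GG τ a ≤ L / 5 * (2 * L) := by
      have : lam (6 / 5 * X) * GG τ b - lam (6 / 5 * X) * GG τ a = lam (6 / 5 * X) * (GG τ b - GG τ a) := by ring
      rw [this]
      calc lam (6 / 5 * X) * (GG τ b - GG τ a) ≤ lam (6 / 5 * X) * (2 * L) :=
            mul_le_mul_of_nonneg_left (by linarith) hlamX0
        _ ≤ L / 5 * (2 * L) := mul_le_mul_of_nonneg_right hlamX (by positivity)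
    have h5 : (S.card : ℝ) ≤ b - a + 1 := by
      have h6 : S.card + a ≤ b + 1 := by omega
      have h7 : ((S.card + a : ℕ) : ℝ) ≤ ((b + 1 : ℕ) : ℝ) := by exact_mod_cast h6
      push_cast at h7
      linarith
    have h8 : L / 5 * (2 * L) ≤ η / 25 * (X * L) := by nlinarith
    have h9 : (1 : ℝ) ≤ η / 10 * (X * L) := by
      have : 10 / η ≤ L := by linarith
      rw [div_le_iff₀ hη] at this
      nlinarith
    have h10 : η' * (X * L) ≤ η / 40 * (X * L) := mul_le_mul_of_nonneg_right hη'2 (by positivity)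
    have h11 : 0 ≤ η * (X * L) := by positivity
    linarith [i1.1, i1.2, i2.1, i2.2]

/-- the squared threshold -/
noncomputable def thr (M c : ℝ) (k : ℕ) : ℝ := min (c / 2) (1 / (750000 * M ^ 2)) * (1 / 40 : ℝ) ^ (10 * M * k)

/-- small gaps in a dyadic block -/
theorem blk (hP : S_PF) (hH : S_HERG) (hTr : S_TRANS) (hMv : S_MOV) (hCl : S_CLUS) (RH : RiemannHypothesis) :
    ∃ M C : ℝ, 1 ≤ M ∧ 1 ≤ C ∧ ∀ (B c η : ℝ) (k : ℕ), 0 < η → 1 ≤ B → 1 ≤ k → 2 * C ≤ k → 128 * M * B ≤ k →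
      1000 * B ≤ k ^ 2 → ∀ᶠ X : ℝ in atTop, ∀ σ : ℝ, 0 < σ → c ≤ σ * Real.log X ^ 2 → σ * Real.log X ^ 2 ≤ B →
      ∀ S : Finset ℕ, (∀ n ∈ S, X < GG σ n ∧ GG σ n ≤ 2 * X ∧
        (Real.log X * (GG σ (n + 1) - GG σ n)) ^ 2 < thr M c k) →
      (S.card : ℝ) ≤ (80 * M * (C / k) ^ k + η) * (X * Real.log X) := by
  classical
  obtain ⟨M, C, hM, hC, hb⟩ := badB hP hH hTr RH
  refine ⟨M, C, hM, hC, fun B c η k hη hB hk hk1 hk2 hk3 => ?_⟩
  have hlogl : ∀ᶠ X : ℝ in atTop, Real.log X ≤ 1 / 40 * X := by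
    have h2 := Real.isLittleO_log_id_atTop.bound (show (0 : ℝ) < 1 / 40 by norm_num)
    filter_upwards [h2, eventually_ge_atTop 1] with X hX hX1
    rw [Real.norm_eq_abs, Real.norm_eq_abs, abs_of_nonneg (Real.log_nonneg hX1)] at hX
    simp only [id] at hX
    rwa [abs_of_pos (by linarith)] at hX
  filter_upwards [hb B k hk hk1 hk2 hk3, near_card RH (K := B) (η := η / 2) (by linarith) (by positivity), hlogl,
    time_ok (K3 := B) (by linarith), Real.tendsto_log_atTop.eventually_ge_atTop 1] with X g1 g2 g3 g4 g5 σ hσ hc hσB S hS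
  obtain ⟨t1, -, -⟩ := g4 σ hσ.le hσB
  have hX0 : 0 < X := by
    by_contra hcon
    rw [not_lt] at hcon
    have := Real.log_le_sub_one_of_pos (x := 1) one_pos
    linarith
  have hYG : ∀ n : ℕ, YY σ (n : ℤ) = GG σ n := fun n => by rw [YY_nat, GG_pos_eq hσ]
  have hgp : ∀ n : ℕ, gp (YY σ) (n : ℤ) = GG σ (n + 1) - GG σ n := by
    intro n
    have e : ((n : ℤ) + 1) = ((n + 1 : ℕ) : ℤ) := by push_cast; ring
    unfold gp
    rw [e, hYG, hYG]
  obtain ⟨S1, hS1⟩ : ∃ S1, S1 = S.filter (fun n => X + 2 * Real.log X ≤ GG σ n ∧ GG σ n ≤ 2 * X - 2 * Real.log X) :=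
    ⟨_, rfl⟩
  obtain ⟨S2, hS2⟩ : ∃ S2, S2 = S.filter (fun n => GG σ n ≤ X + 2 * Real.log X) := ⟨_, rfl⟩
  obtain ⟨S3, hS3⟩ : ∃ S3, S3 = S.filter (fun n => 2 * X - 2 * Real.log X ≤ GG σ n) := ⟨_, rfl⟩
  have hcov : S ⊆ S1 ∪ (S2 ∪ S3) := by
    intro n hn
    rw [Finset.mem_union, Finset.mem_union, hS1, hS2, hS3, Finset.mem_filter, Finset.mem_filter, Finset.mem_filter]
    by_cases h1 : GG σ n ≤ X + 2 * Real.log X
    · exact Or.inr (Or.inl ⟨hn, h1⟩)
    · by_cases h2 : 2 * X - 2 * Real.log X ≤ GG σ n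
      · exact Or.inr (Or.inr ⟨hn, h2⟩)
      · rw [not_le] at h1 h2
        exact Or.inl ⟨hn, h1.le, h2.le⟩
  have hcard : (S.card : ℝ) ≤ S1.card + (S2.card + S3.card) := by
    have h1 := (Finset.card_le_card hcov).trans ((Finset.card_union_le _ _).trans
      (Nat.add_le_add_left (Finset.card_union_le _ _) _))
    exact_mod_cast h1
  have c2 : (S2.card : ℝ) ≤ η / 2 * (X * Real.log X) := by
    apply g2 σ hσ.le hσB X le_rfl (by linarith) S2
    intro n hn
    rw [hS2, Finset.mem_filter] at hn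
    exact ⟨(hS n hn.1).1.le, hn.2⟩
  have c3 : (S3.card : ℝ) ≤ η / 2 * (X * Real.log X) := by
    apply g2 σ hσ.le hσB (2 * X - 2 * Real.log X) (by linarith) (by linarith) S3
    intro n hn
    rw [hS3, Finset.mem_filter] at hn
    exact ⟨hn.2, by linarith [(hS n hn.1).2.1]⟩
  have c1 : (S1.card : ℝ) ≤ 80 * M * (X * Real.log X) * (C / k) ^ k := by
    have h1 := g1 σ hσ hσB (S1.image (fun n : ℕ => (n : ℤ))) (by
      intro i hi
      rw [Finset.mem_image] at hi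
      obtain ⟨n, hn, rfl⟩ := hi
      rw [hS1, Finset.mem_filter] at hn
      rw [hYG]
      refine ⟨hn.2.1, hn.2.2, fun hg => ?_⟩
      have e1 : 128 * M * (σ * Real.log X ^ 2) ≤ k := by
        have : 128 * M * (σ * Real.log X ^ 2) ≤ 128 * M * B := mul_le_mul_of_nonneg_left hσB (by positivity)
        linarith
      have h2 := good_gap hP hH hTr hMv hCl RH (n : ℤ) hM g5 hk hσ t1 e1 (by linarith) (by rw [hYG]; exact hg)
      rw [hgp] at h2
      have h3 := (hS n hn.1).2.2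
      have h4 := fac_low hM hk
      have h5 : thr M c k ≤ min (σ * Real.log X ^ 2 / 2) (1 / (750000 * M ^ 2)) *
          (((⌊10 * M * k⌋₊).factorial : ℝ) / (100 * M * k) ^ (⌊10 * M * k⌋₊ - 1)) := by
        unfold thr
        apply mul_le_mul _ h4 (by positivity) (by positivity)
        exact min_le_min_right _ (by linarith)
      linarith)
    rwa [Finset.card_image_of_injective _ (fun a b h => by exact_mod_cast h)] at h1
  have e : (80 * M * (C / k) ^ k + η) * (X * Real.log X) =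
      80 * M * (X * Real.log X) * (C / k) ^ k + (η / 2 * (X * Real.log X) + η / 2 * (X * Real.log X)) := by ring
  rw [e]
  linarith

end Pool.Agent.P8H8.PC
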