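import Pool.Agent.P8H8.HF.Gd4

set_option autoImplicit false

/-!
# The Gaudin distribution function vanishes at most like a power at the origin
-/

namespace Pool.Agent.P8H8.PC

open Filter Topology
open Pool.Agent.P8H8.HF

theorem gaudin_low {D0 D1 : ℝ → ℝ} (h1 : ∀ s, HasDerivAt D0 (D1 s) s) (h2 : ∀ s, 0 < s → D0 s = fred s) :
    ∃ A : ℕ, ∀ᶠ x : ℝ in 𝓝[>] 0, x ^ A ≤ |1 + D1 x| := by
  have hG : ∀ x : ℝ, 0 < x → deriv Ef (x : ℂ) = ((D1 x : ℝ) : ℂ) := by
    intro x hx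
    have e1 : HasDerivAt (fun s : ℝ => Ef (s : ℂ)) (deriv Ef (x : ℂ)) x :=
      (Ef_diff (x : ℂ)).hasDerivAt.comp_ofReal
    have e2 : HasDerivAt (fun s : ℝ => ((D0 s : ℝ) : ℂ)) ((D1 x : ℝ) : ℂ) x := (h1 x).ofReal_comp
    have e3 : (fun s : ℝ => Ef (s : ℂ)) =ᶠ[𝓝 x] fun s : ℝ => ((D0 s : ℝ) : ℂ) := by
      filter_upwards [lt_mem_nhds hx] with s hs
      rw [Ef_real hs, h2 s hs]
    exact (e1.congr_of_eventuallyEq e3.symm).unique e2
  have hd : Differentiable ℂ (fun z => deriv Ef z + 1) := fun z =>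
    ((Ef_diff.analyticAt z).deriv.differentiableAt).add_const _
  have hA : AnalyticAt ℂ (fun z => deriv Ef z + 1) 0 := hd.analyticAt 0
  have hne : ¬ ∀ᶠ z in 𝓝 (0 : ℂ), deriv Ef z + 1 = 0 := by
    intro h
    have hAll : (fun z => deriv Ef z + 1) = fun _ => (0 : ℂ) := by
      have k1 : AnalyticOnNhd ℂ (fun z => deriv Ef z + 1) Set.univ := fun z _ => hd.analyticAt z
      have k2 : AnalyticOnNhd ℂ (fun _ : ℂ => (0 : ℂ)) Set.univ := fun z _ => analyticAt_const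
      exact k1.eq_of_eventuallyEq k2 h
    have hder : ∀ z : ℂ, HasDerivAt (fun w => Ef w + w) 0 z := by
      intro z
      have e1 := ((Ef_diff z).hasDerivAt).add (hasDerivAt_id z)
      have e2 : deriv Ef z + 1 = 0 := congrFun hAll z
      rw [e2] at e1
      exact e1
    have hconst := is_const_of_deriv_eq_zero (f := fun w => Ef w + w) (fun z => (hder z).differentiableAt)
      (fun z => (hder z).deriv) 3 1
    have e3 := Ef_real (s := 3) (by norm_num)
    have e1 := Ef_real (s := 1) (by norm_num)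
    push_cast at e3 e1
    rw [e3, e1] at hconst
    have h3 : fred 3 + 3 = fred 1 + 1 := by exact_mod_cast hconst
    have b3 := fred_bd (s := 3) (by norm_num)
    have b1 := fred_bd (s := 1) (by norm_num)
    have h4 : Real.exp (-1) ≤ 1 := Real.exp_le_one_iff.2 (by norm_num)
    linarith [b3.1, b1.2]
  obtain ⟨n, g, hg, hg0, hfg⟩ := hA.exists_eventuallyEq_pow_smul_nonzero_iff.2 hne
  have hgn : 0 < ‖g 0‖ := norm_pos_iff.2 hg0
  have hgc : ∀ᶠ z in 𝓝 (0 : ℂ), ‖g 0‖ / 2 < ‖g z‖ := by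
    have := hg.continuousAt.norm
    exact this.eventually (lt_mem_nhds (by linarith))
  have hof : Tendsto (fun x : ℝ => (x : ℂ)) (𝓝[>] 0) (𝓝 (0 : ℂ)) := by
    have h3 : Tendsto (fun x : ℝ => (x : ℂ)) (𝓝 0) (𝓝 ((0 : ℝ) : ℂ)) := Complex.continuous_ofReal.tendsto 0
    rw [Complex.ofReal_zero] at h3
    exact h3.mono_left nhdsWithin_le_nhds
  refine ⟨n + 1, ?_⟩
  have hsm : ∀ᶠ x : ℝ in 𝓝[>] 0, x < ‖g 0‖ / 2 :=
    nhdsWithin_le_nhds (gt_mem_nhds (by positivity))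
  filter_upwards [hof.eventually hfg, hof.eventually hgc, hsm, self_mem_nhdsWithin] with x e1 e2 e3 e4
  have e4' : 0 < x := e4
  rw [hG x e4', sub_zero, smul_eq_mul] at e1
  have e5 : |1 + D1 x| = x ^ n * ‖g x‖ := by
    have e6 : ‖((D1 x : ℝ) : ℂ) + 1‖ = |1 + D1 x| := by
      rw [← Complex.ofReal_one, ← Complex.ofReal_add, Complex.norm_real, Real.norm_eq_abs, add_comm]
    rw [← e6, e1, norm_mul, norm_pow, Complex.norm_real, Real.norm_eq_abs, abs_of_pos e4']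
  rw [e5, pow_succ]
  exact mul_le_mul_of_nonneg_left (e3.le.trans e2.le) (by positivity)

end Pool.Agent.P8H8.PC
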