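import Pool.Agent.P8H8.PC.Stm

set_option autoImplicit false

/-!
# Good places: few zeros and no small gaps, at all microscopic times
-/

namespace Pool.Agent.P8H8.PC

open Finset Filter Topology
open Pool.Agent.P8H8.HF

/-- `x` is a good place at the level `k` -/
def good (M T : ℝ) (k : ℕ) (x : ℝ) : Prop :=
  ∃ t : ℝ, |t - x| ≤ k / (4 * Real.log T) ∧ ‖LL 0 (⟨k / Real.log T, t⟩ : ℂ)‖ ≤ M * Real.log T

theorem good_ctl (hH : S_HERG) (hT : S_TRANS) (RH : RiemannHypothesis) {M T σ x : ℝ} {k : ℕ} (hM : 1 ≤ M)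
    (hL : 1 ≤ Real.log T) (hk : 1 ≤ k) (hσ : 0 ≤ σ) (hσ8 : σ < 1 / 8)
    (h1 : 128 * M * (σ * Real.log T ^ 2) ≤ k) (h2 : 1000 * (σ * Real.log T ^ 2) ≤ k ^ 2)
    (hg : good M T k x) : ∀ s, 0 ≤ s → s ≤ σ → ‖LL s (⟨k / Real.log T, x⟩ : ℂ)‖ ≤ 4 * M * Real.log T := by
  obtain ⟨L, hLd⟩ : ∃ L, L = Real.log T := ⟨_, rfl⟩
  unfold good at hg
  rw [← hLd] at hL h1 h2 hg ⊢
  obtain ⟨t, ht, hLt⟩ := hg
  have hL0 : 0 < L := by linarith
  have hk0 : (0 : ℝ) < k := by exact_mod_cast hk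
  obtain ⟨a, ha⟩ : ∃ a, a = k / L := ⟨_, rfl⟩
  have ha0 : 0 < a := by rw [ha]; positivity
  rw [← ha] at hLt ⊢
  have ht4 : |t - x| ≤ a / 4 := by
    refine ht.trans (le_of_eq ?_)
    rw [ha]
    field_simp
  have hz1 : (⟨a, t⟩ : ℂ).re = a := rfl
  obtain ⟨-, -, h5⟩ := hH RH 0 le_rfl (by norm_num) (⟨a, t⟩ : ℂ) (by rw [hz1]; exact ha0)
  have hball : ∀ z : ℂ, ‖z - (⟨a, x⟩ : ℂ)‖ ≤ a / 4 → ‖LL 0 z‖ ≤ 2 * M * L := by
    intro z hz
    have e1 : ‖(⟨a, x⟩ : ℂ) - (⟨a, t⟩ : ℂ)‖ ≤ a / 4 := by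
      have e2 : (⟨a, x⟩ : ℂ) - (⟨a, t⟩ : ℂ) = Complex.I * ((x - t : ℝ) : ℂ) := by
        apply Complex.ext <;> simp
      rw [e2, norm_mul, Complex.norm_I, one_mul, Complex.norm_real, Real.norm_eq_abs, abs_sub_comm]
      exact ht4
    have e3 : ‖z - (⟨a, t⟩ : ℂ)‖ ≤ a / 2 := by
      have e4 : z - (⟨a, t⟩ : ℂ) = (z - (⟨a, x⟩ : ℂ)) + ((⟨a, x⟩ : ℂ) - (⟨a, t⟩ : ℂ)) := by ring
      rw [e4]
      refine (norm_add_le _ _).trans ?_
      linarith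
    have e5 := h5 z (by rw [hz1]; exact e3)
    rw [hz1] at e5
    have e6 : (LL 0 (⟨a, t⟩ : ℂ)).re ≤ M * L := (Complex.re_le_norm _).trans hLt
    have e7 : ‖z - (⟨a, t⟩ : ℂ)‖ / a ≤ 1 / 2 := by
      rw [div_le_iff₀ ha0]
      linarith
    have e8 : 0 ≤ ‖z - (⟨a, t⟩ : ℂ)‖ / a := by positivity
    have e9 : 2 * (‖z - (⟨a, t⟩ : ℂ)‖ / a) * (LL 0 (⟨a, t⟩ : ℂ)).re ≤ M * L := by
      have hML : 0 ≤ M * L := by positivity
      calc 2 * (‖z - (⟨a, t⟩ : ℂ)‖ / a) * (LL 0 (⟨a, t⟩ : ℂ)).re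
          ≤ 2 * (‖z - (⟨a, t⟩ : ℂ)‖ / a) * (M * L) := mul_le_mul_of_nonneg_left e6 (by positivity)
        _ ≤ 1 * (M * L) := mul_le_mul_of_nonneg_right (by linarith) hML
        _ = M * L := one_mul _
    have e10 : ‖LL 0 z‖ ≤ ‖LL 0 z - LL 0 (⟨a, t⟩ : ℂ)‖ + ‖LL 0 (⟨a, t⟩ : ℂ)‖ := by
      have := norm_add_le (LL 0 z - LL 0 (⟨a, t⟩ : ℂ)) (LL 0 (⟨a, t⟩ : ℂ))
      simpa using this
    linarith
  intro s hs1 hs2
  have h6 := hT RH σ x a (2 * M * L) hσ hσ8 ha0 (by positivity) (by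
    rw [ha, le_div_iff₀ hL0]
    calc 64 * (2 * M * L) * σ * L = 128 * M * (σ * L ^ 2) := by ring
      _ ≤ k := h1) (by
    rw [ha, div_pow, le_div_iff₀ (by positivity)]
    calc 1000 * σ * L ^ 2 = 1000 * (σ * L ^ 2) := by ring
      _ ≤ (k : ℝ) ^ 2 := h2) hball s hs1 hs2
  refine h6.trans (le_of_eq ?_)
  ring

lemma term_norm {a x y : ℝ} : ((⟨a, x⟩ : ℂ) - Complex.I * (y : ℂ))⁻¹ =
    -Complex.I * ((x : ℂ) - (y : ℂ) - Complex.I * (a : ℂ))⁻¹ := by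
  have e : (⟨a, x⟩ : ℂ) - Complex.I * (y : ℂ) = Complex.I * ((x : ℂ) - (y : ℂ) - Complex.I * (a : ℂ)) := by
    apply Complex.ext <;> simp
  rw [e, mul_inv, Complex.inv_I]

lemma term_re {a x y : ℝ} : (((⟨a, x⟩ : ℂ) - Complex.I * (y : ℂ))⁻¹).re = a / ((x - y) ^ 2 + a ^ 2) := by
  rw [Complex.inv_re, Complex.normSq_apply]
  simp
  congr 1
  ring

/-- the partial sums are eventually bounded -/
theorem ctl_sums (hP : S_PF) (RH : RiemannHypothesis) {s a x K K' : ℝ} (hs : 0 < s) (hs8 : s ≤ 1 / 8) (ha : 0 < a)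
    (hK : K < K') (h : ‖LL s (⟨a, x⟩ : ℂ)‖ ≤ K) :
    (∀ᶠ M : ℕ in atTop, ‖∑ i ∈ Ico (-(M : ℤ)) M, ((x : ℂ) - (YY s i : ℂ) - Complex.I * (a : ℂ))⁻¹‖ ≤ K') ∧
    ∀ᶠ M : ℕ in atTop, ∑ i ∈ Ico (-(M : ℤ)) M, a / ((x - YY s i) ^ 2 + a ^ 2) ≤ K' := by
  have h1 := hP RH s hs hs8 (⟨a, x⟩ : ℂ) ha
  have h2 : ∀ᶠ M : ℕ in atTop, ‖∑ i ∈ Ico (-(M : ℤ)) M, ((⟨a, x⟩ : ℂ) - Complex.I * (YY s i : ℂ))⁻¹‖ ≤ K' :=
    (h1.norm.eventually (eventually_lt_nhds (h.trans_lt hK))).mono fun M hM => hM.le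
  have h3 : ∀ M : ℕ, ‖∑ i ∈ Ico (-(M : ℤ)) M, ((⟨a, x⟩ : ℂ) - Complex.I * (YY s i : ℂ))⁻¹‖ =
      ‖∑ i ∈ Ico (-(M : ℤ)) M, ((x : ℂ) - (YY s i : ℂ) - Complex.I * (a : ℂ))⁻¹‖ := by
    intro M
    have e : ∑ i ∈ Ico (-(M : ℤ)) M, ((⟨a, x⟩ : ℂ) - Complex.I * (YY s i : ℂ))⁻¹ =
        -Complex.I * ∑ i ∈ Ico (-(M : ℤ)) M, ((x : ℂ) - (YY s i : ℂ) - Complex.I * (a : ℂ))⁻¹ := by
      rw [mul_sum]
      exact sum_congr rfl fun i _ => term_norm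
    rw [e, norm_mul, norm_neg, Complex.norm_I, one_mul]
  constructor
  · filter_upwards [h2] with M hM
    rw [← h3]
    exact hM
  · filter_upwards [h2] with M hM
    refine le_trans (le_of_eq ?_) ((Complex.re_le_norm _).trans hM)
    rw [Complex.re_sum]
    exact sum_congr rfl fun i _ => term_re.symm

/-- few points in a window -/
lemma card_of_sum {y : ℤ → ℝ} {a x K : ℝ} (ha : 0 < a)
    (h : ∀ᶠ M : ℕ in atTop, ∑ i ∈ Ico (-(M : ℤ)) M, a / ((x - y i) ^ 2 + a ^ 2) ≤ K) (J : Finset ℤ)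
    (hJ : ∀ j ∈ J, |y j - x| ≤ a) : (J.card : ℝ) ≤ 2 * (a * K) := by
  have hb : ∀ᶠ M : ℕ in atTop, J ⊆ Ico (-(M : ℤ)) M := by
    obtain ⟨B, hB⟩ : ∃ B : ℕ, ∀ j ∈ J, j.natAbs ≤ B := ⟨J.sup Int.natAbs, fun j hj => Finset.le_sup (f := Int.natAbs) hj⟩
    filter_upwards [eventually_gt_atTop B] with M hM j hj
    have := hB j hj
    rw [mem_Ico]
    omega
  obtain ⟨M, h1, h2⟩ := (hb.and h).exists
  have h3 : ∀ i, 0 ≤ a / ((x - y i) ^ 2 + a ^ 2) := fun i => by positivity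
  have h4 : ∑ i ∈ J, a / ((x - y i) ^ 2 + a ^ 2) ≤ K :=
    (sum_le_sum_of_subset_of_nonneg h1 fun i _ _ => h3 i).trans h2
  have h5 : (J.card : ℝ) * (1 / (2 * a)) ≤ ∑ i ∈ J, a / ((x - y i) ^ 2 + a ^ 2) := by
    rw [← nsmul_eq_mul, ← sum_const]
    refine sum_le_sum fun i hi => ?_
    have h6 : (x - y i) ^ 2 ≤ a ^ 2 := by
      rw [← sq_abs, abs_sub_comm]
      exact pow_le_pow_left₀ (abs_nonneg _) (hJ i hi) 2
    rw [div_le_div_iff₀ (by positivity) (by positivity)]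
    nlinarith
  have h7 := h5.trans h4
  rw [mul_one_div, div_le_iff₀ (by positivity)] at h7
  linarith

theorem good_card (hP : S_PF) (hH : S_HERG) (hT : S_TRANS) (RH : RiemannHypothesis) {M T σ x : ℝ} {k : ℕ}
    (hM : 1 ≤ M) (hL : 1 ≤ Real.log T) (hk : 1 ≤ k) (hσ : 0 < σ) (hσ8 : σ < 1 / 8)
    (h1 : 128 * M * (σ * Real.log T ^ 2) ≤ k) (h2 : 1000 * (σ * Real.log T ^ 2) ≤ k ^ 2)
    (hg : good M T k x) (J : Finset ℤ) (hJ : ∀ j ∈ J, |YY σ j - x| ≤ k / Real.log T) :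
    (J.card : ℝ) ≤ 10 * M * k := by
  have hL0 : 0 < Real.log T := by linarith
  have hk0 : (0 : ℝ) < k := by exact_mod_cast hk
  have hML : 0 < M * Real.log T := by positivity
  have h3 := good_ctl hH hT RH hM hL hk hσ.le hσ8 h1 h2 hg σ hσ.le le_rfl
  have h4 := (ctl_sums hP RH (a := k / Real.log T) (K' := 5 * M * Real.log T) hσ hσ8.le (by positivity)
    (by nlinarith) h3).2
  have h5 := card_of_sum (by positivity) h4 J hJ
  refine h5.trans (le_of_eq ?_)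
  field_simp
  norm_num

theorem good_gap (hP : S_PF) (hH : S_HERG) (hT : S_TRANS) (hMv : S_MOV) (hC : S_CLUS) (RH : RiemannHypothesis)
    {M T σ : ℝ} {k : ℕ} (i : ℤ)
    (hM : 1 ≤ M) (hL : 1 ≤ Real.log T) (hk : 1 ≤ k) (hσ : 0 < σ) (hσ8 : σ < 1 / 8)
    (h1 : 128 * M * (σ * Real.log T ^ 2) ≤ k) (h2 : 1000 * (σ * Real.log T ^ 2) ≤ k ^ 2)
    (hg : good M T k (YY σ i)) :
    min (σ * Real.log T ^ 2 / 2) (1 / (750000 * M ^ 2)) *
      (((⌊10 * M * k⌋₊).factorial : ℝ) / (100 * M * k) ^ (⌊10 * M * k⌋₊ - 1)) ≤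
      (Real.log T * gp (YY σ) i) ^ 2 := by
  obtain ⟨L, hLd⟩ : ∃ L, L = Real.log T := ⟨_, rfl⟩
  have h3 := good_ctl hH hT RH hM hL hk hσ.le hσ8 h1 h2 hg
  rw [← hLd] at hL h1 h2 h3 ⊢
  have hL0 : 0 < L := by linarith
  have hk0 : (0 : ℝ) < k := by exact_mod_cast hk
  have hk1 : (1 : ℝ) ≤ k := by exact_mod_cast hk
  have hM0 : 0 < M := by linarith
  have hML : 0 < M * L := by positivity
  obtain ⟨a, ha⟩ : ∃ a, a = k / L := ⟨_, rfl⟩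
  have ha0 : 0 < a := by rw [ha]; positivity
  obtain ⟨K, hK⟩ : ∃ K, K = 5 * M * L := ⟨_, rfl⟩
  have hK0 : 0 < K := by rw [hK]; positivity
  have haK : a * K = 5 * M * k := by rw [ha, hK]; field_simp
  have haK1 : 1 ≤ a * K := by rw [haK]; nlinarith
  obtain ⟨δ, hδ⟩ : ∃ δ, δ = min (σ / 2) (1 / (30000 * K ^ 2)) := ⟨_, rfl⟩
  have hδ0 : 0 < δ := by rw [hδ]; positivity
  have hδσ : δ ≤ σ / 2 := by rw [hδ]; exact min_le_left _ _
  have hδK : δ * (30000 * K ^ 2) ≤ 1 := by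
    have : δ ≤ 1 / (30000 * K ^ 2) := by rw [hδ]; exact min_le_right _ _
    rwa [le_div_iff₀ (by positivity)] at this
  have hF := flow_xi RH
  have hlt : 4 * M * L < K := by rw [hK]; nlinarith
  have hmv := hMv YY (1 / 8) hF (σ - δ) σ (YY σ i) a K i (by linarith) (by linarith) hσ8 ha0 haK1 rfl
    (by
      have : (σ - (σ - δ)) = δ := by ring
      rw [this]
      exact hδK)
    (fun s hs1 hs2 => (ctl_sums hP RH (by linarith) (by linarith) ha0 hlt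
      (by rw [ha]; exact h3 s (by linarith) hs2)).1)
  obtain ⟨Q, hQ⟩ : ∃ Q, Q = min δ (a ^ 2 / 4) := ⟨_, rfl⟩
  have hQ0 : 0 < Q := by rw [hQ]; positivity
  have hcl := hC YY (1 / 8) hF (σ - δ) σ (YY σ i) a K Q i (by linarith)
    (by
      have : Q ≤ δ := by rw [hQ]; exact min_le_left _ _
      linarith) hσ8 ha0 hQ0 (by rw [hQ]; exact min_le_right _ _) haK1 hmv
    (fun s hs1 hs2 => (ctl_sums hP RH (by linarith) (by linarith) ha0 hlt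
      (by rw [ha]; exact h3 s (by linarith) hs2)).2)
  rw [haK] at hcl
  have e1 : 2 * (5 * M * k) = 10 * M * k := by ring
  have e2 : 20 * (5 * M * k) = 100 * M * k := by ring
  rw [e1, e2] at hcl
  obtain ⟨Fa, hFa⟩ : ∃ Fa, Fa = ((⌊10 * M * k⌋₊).factorial : ℝ) / (100 * M * k) ^ (⌊10 * M * k⌋₊ - 1) := ⟨_, rfl⟩
  have hFa0 : 0 < Fa := by rw [hFa]; positivity
  rw [mul_div_assoc, ← hFa] at hcl
  rw [← hFa, mul_pow]
  have hQL : min (σ * L ^ 2 / 2) (1 / (750000 * M ^ 2)) ≤ L ^ 2 * Q := by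
    rw [hQ, hδ]
    have e3 : L ^ 2 * min (min (σ / 2) (1 / (30000 * K ^ 2))) (a ^ 2 / 4) =
        min (min (L ^ 2 * (σ / 2)) (L ^ 2 * (1 / (30000 * K ^ 2)))) (L ^ 2 * (a ^ 2 / 4)) := by
      rw [mul_min_of_nonneg _ _ (by positivity), mul_min_of_nonneg _ _ (by positivity)]
    rw [e3]
    refine le_min (le_min ?_ ?_) ?_
    · refine (min_le_left _ _).trans (le_of_eq ?_)
      ring
    · refine (min_le_right _ _).trans (le_of_eq ?_)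
      rw [hK]
      field_simp
      norm_num
    · refine (min_le_right _ _).trans ?_
      rw [ha]
      have e4 : L ^ 2 * ((k / L) ^ 2 / 4) = k ^ 2 / 4 := by field_simp
      rw [e4, div_le_div_iff₀ (by positivity) (by positivity)]
      nlinarith [mul_self_nonneg (M - 1), mul_self_nonneg ((k : ℝ) - 1)]
  calc min (σ * L ^ 2 / 2) (1 / (750000 * M ^ 2)) * Fa ≤ L ^ 2 * Q * Fa :=
        mul_le_mul_of_nonneg_right hQL hFa0.le
    _ = L ^ 2 * (Q * Fa) := by ring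
    _ ≤ L ^ 2 * gp (YY σ) i ^ 2 := mul_le_mul_of_nonneg_left hcl (by positivity)

/-- the factorial factor is exponential -/
lemma fac_low {M : ℝ} (hM : 1 ≤ M) {k : ℕ} (hk : 1 ≤ k) :
    (1 / 40 : ℝ) ^ (10 * M * k) ≤ ((⌊10 * M * k⌋₊).factorial : ℝ) / (100 * M * k) ^ (⌊10 * M * k⌋₊ - 1) := by
  have hk1 : (1 : ℝ) ≤ k := by exact_mod_cast hk
  obtain ⟨N, hN⟩ : ∃ N, N = ⌊10 * M * (k : ℝ)⌋₊ := ⟨_, rfl⟩
  rw [← hN]
  have hMk : 1 ≤ M * k := by nlinarith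
  have hN1 : (N : ℝ) ≤ 10 * M * k := by rw [hN]; exact Nat.floor_le (by positivity)
  have hN2 : 10 * M * k < N + 1 := by rw [hN]; exact Nat.lt_floor_add_one _
  have hN9 : 9 * (M * k) ≤ N := by linarith
  have hN0 : (0 : ℝ) < N := by linarith
  have h1 : (N : ℝ) ^ N ≤ (N.factorial : ℝ) * 3 ^ N := by
    have h2 := Real.pow_div_factorial_le_exp (N : ℝ) hN0.le N
    rw [div_le_iff₀ (by positivity)] at h2
    have h3 : Real.exp (N : ℝ) ≤ 3 ^ N := by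
      have h4 : Real.exp (N : ℝ) = Real.exp 1 ^ N := by rw [← Real.exp_nat_mul, mul_one]
      rw [h4]
      apply pow_le_pow_left₀ (Real.exp_pos _).le
      have := Real.exp_one_lt_d9
      linarith
    calc (N : ℝ) ^ N ≤ Real.exp N * N.factorial := h2
      _ ≤ 3 ^ N * N.factorial := mul_le_mul_of_nonneg_right h3 (by positivity)
      _ = _ := mul_comm _ _
  have hb : (1 : ℝ) ≤ 100 * M * k := by nlinarith
  have h5 : (100 * M * k) ^ (N - 1) ≤ (100 * M * k) ^ N := pow_le_pow_right₀ hb (Nat.sub_le _ _)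
  have h6 : (N.factorial : ℝ) / (100 * M * k) ^ N ≤ (N.factorial : ℝ) / (100 * M * k) ^ (N - 1) :=
    div_le_div_of_nonneg_left (by positivity) (by positivity) h5
  refine le_trans ?_ h6
  have h7 : (1 / 40 : ℝ) ^ (10 * M * k) ≤ (1 / 40 : ℝ) ^ N := by
    rw [← Real.rpow_natCast]
    exact Real.rpow_le_rpow_of_exponent_ge (by norm_num) (by norm_num) hN1
  refine h7.trans ?_
  rw [le_div_iff₀ (by positivity), ← mul_pow]
  have h8 : (1 / 40 * (100 * M * k)) ^ N ≤ ((N : ℝ) / 3) ^ N := by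
    apply pow_le_pow_left₀ (by positivity)
    linarith
  refine h8.trans ?_
  rw [div_pow, div_le_iff₀ (by positivity)]
  exact h1

end Pool.Agent.P8H8.PC
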