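import Pool.Agent.H382P.YaB
import Pool.Agent.H382P.FFb
import Pool.Agent.H382L.MomQW
import Pool.Agent.H382L.ClusterTail

set_option autoImplicit false

/-!
# The logarithmic derivative at the height `k / log T` from the critical line: prime sums
-/

open Complex Filter Topology Set MeasureTheory

namespace Pool.Agent.P8H8.PC

open SP SG

/-- comparison of the truncated kernel with the full one at the scale `k` -/
theorem kernel_k {L l x : ℝ} {k : ℕ} (hL : 0 < L) (hk : 1 ≤ k) (hl : 0 < l)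
    (hlk : L / (4 * k) ≤ l) :
    ‖(∫ u in (0 : ℝ)..l, (1 - (u : ℂ) / l) ^ 2 * cexp (-((((k : ℝ)) / L : ℝ) - I * x) * u)) / L -
      1 / (((k : ℝ) : ℂ) - I * (L * x : ℝ))‖ ≤ (60 / k) / (1 + (L * x / k) ^ 2) := by
  have hk0 : (0 : ℝ) < k := by exact_mod_cast hk
  have hk1 : (1 : ℝ) ≤ k := by exact_mod_cast hk
  obtain ⟨a, ha'⟩ : ∃ a : ℝ, a = (k : ℝ) := ⟨_, rfl⟩
  rw [← ha']
  have ha : 0 < a := by rw [ha']; exact hk0
  obtain ⟨z, hz⟩ : ∃ z : ℂ, z = ((a / L : ℝ) : ℂ) - I * x := ⟨_, rfl⟩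
  have hzre : z.re = a / L := by simp [hz]
  have hz0 : z ≠ 0 := by
    intro h
    rw [h, Complex.zero_re] at hzre
    have : 0 < a / L := by positivity
    linarith
  have hLc : (L : ℂ) ≠ 0 := by exact_mod_cast hL.ne'
  have hX : (a : ℂ) - I * (L * x : ℝ) = L * z := by
    rw [hz]
    push_cast
    field_simp
  obtain ⟨X, hXd⟩ : ∃ X, X = ‖(a : ℂ) - I * (L * x : ℝ)‖ := ⟨_, rfl⟩
  have hXz : X = L * ‖z‖ := by
    rw [hXd, hX, norm_mul, Complex.norm_real, Real.norm_eq_abs, abs_of_pos hL]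
  have hXa : a ≤ X := by
    have := Complex.abs_re_le_norm ((a : ℂ) - I * (L * x : ℝ))
    have e : ((a : ℂ) - I * (L * x : ℝ)).re = a := by simp
    rw [e, abs_of_pos ha] at this
    rw [hXd]
    exact this
  have hXx : |L * x| ≤ X := by
    have := Complex.abs_im_le_norm ((a : ℂ) - I * (L * x : ℝ))
    have e : ((a : ℂ) - I * (L * x : ℝ)).im = -(L * x) := by simp
    rw [e, abs_neg] at this
    rw [hXd]
    exact this
  have hX0 : 0 < X := lt_of_lt_of_le ha hXa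
  have hzn : 0 < ‖z‖ := norm_pos_iff.2 hz0
  rw [← hz]
  rw [YaB.int_exp hl hz0]
  have e1 : (1 / z - 2 / ((l : ℂ) ^ 2 * z ^ 3) * (z * l - 1 + cexp (-(z * l)))) / L -
      1 / ((a : ℂ) - I * (L * x : ℝ)) = -(2 / ((l : ℂ) ^ 2 * z ^ 3 * L) * (z * l - 1 + cexp (-(z * l)))) := by
    rw [hX]
    have hl0 : (l : ℂ) ≠ 0 := by exact_mod_cast hl.ne'
    field_simp
    ring
  rw [e1, norm_neg, norm_mul]
  have hwre : 0 ≤ (z * l).re := by
    rw [Complex.re_mul_ofReal, hzre]; positivity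
  obtain ⟨b1, b2⟩ := YaB.exp_bd hwre
  have hwn : ‖z * l‖ = ‖z‖ * l := by
    rw [norm_mul, Complex.norm_real, Real.norm_eq_abs, abs_of_pos hl]
  rw [hwn] at b1 b2
  have e2 : ‖2 / ((l : ℂ) ^ 2 * z ^ 3 * L)‖ = 2 / (l ^ 2 * ‖z‖ ^ 3 * L) := by
    rw [norm_div, norm_mul, norm_mul, norm_pow, norm_pow, Complex.norm_real, Complex.norm_real,
      Real.norm_eq_abs, Real.norm_eq_abs, abs_of_pos hl, abs_of_pos hL]
    norm_num
  rw [e2]
  have c1 : 2 / (l ^ 2 * ‖z‖ ^ 3 * L) * ‖z * l - 1 + cexp (-(z * l))‖ ≤ 6 / X := by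
    calc 2 / (l ^ 2 * ‖z‖ ^ 3 * L) * ‖z * l - 1 + cexp (-(z * l))‖
        ≤ 2 / (l ^ 2 * ‖z‖ ^ 3 * L) * (3 * (‖z‖ * l) ^ 2) :=
          mul_le_mul_of_nonneg_left b2 (by positivity)
      _ = 6 / X := by rw [hXz]; field_simp; norm_num
  have c2 : 2 / (l ^ 2 * ‖z‖ ^ 3 * L) * ‖z * l - 1 + cexp (-(z * l))‖ ≤ 24 * k / X ^ 2 := by
    calc 2 / (l ^ 2 * ‖z‖ ^ 3 * L) * ‖z * l - 1 + cexp (-(z * l))‖
        ≤ 2 / (l ^ 2 * ‖z‖ ^ 3 * L) * (3 * (‖z‖ * l)) :=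
          mul_le_mul_of_nonneg_left b1 (by positivity)
      _ = 6 * L / (l * X ^ 2) := by rw [hXz]; field_simp; norm_num
      _ ≤ 24 * k / X ^ 2 := by
          rw [div_le_div_iff₀ (by positivity) (by positivity)]
          have h1 : L ≤ 4 * k * l := by
            rw [div_le_iff₀ (by positivity)] at hlk
            linarith
          nlinarith [mul_le_mul_of_nonneg_right h1 (sq_nonneg X)]
  rcases le_or_gt |L * x| k with h | h
  · refine c1.trans ?_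
    have h1 : (L * x / k) ^ 2 ≤ 1 := by
      rw [div_pow, div_le_one (by positivity), ← sq_abs]
      exact pow_le_pow_left₀ (abs_nonneg _) h 2
    have h2 : 6 / X ≤ 6 / a := div_le_div_of_nonneg_left (by norm_num) ha hXa
    refine h2.trans ?_
    rw [ha', le_div_iff₀ (by positivity)]
    have h3 : 6 / (k : ℝ) * (1 + (L * x / k) ^ 2) ≤ 6 / k * 2 :=
      mul_le_mul_of_nonneg_left (by linarith) (by positivity)
    have h4 : 6 / (k : ℝ) * 2 ≤ 60 / k := by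
      rw [div_mul_eq_mul_div]
      apply div_le_div_of_nonneg_right (by norm_num) hk0.le
    linarith
  · refine c2.trans ?_
    have hx2 : (k : ℝ) ^ 2 ≤ (L * x) ^ 2 := by
      rw [← sq_abs (L * x)]
      exact pow_le_pow_left₀ hk0.le h.le 2
    have hX2 : (L * x) ^ 2 ≤ X ^ 2 := by
      rw [← sq_abs (L * x)]
      exact pow_le_pow_left₀ (abs_nonneg _) hXx 2
    have hp : 0 < (L * x) ^ 2 := lt_of_lt_of_le (by positivity) hx2
    have h1 : 24 * k / X ^ 2 ≤ 24 * k / (L * x) ^ 2 :=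
      div_le_div_of_nonneg_left (by positivity) hp hX2
    refine h1.trans ?_
    have h2 : 1 + (L * x / k) ^ 2 ≤ 2 * ((L * x) ^ 2 / k ^ 2) := by
      rw [div_pow]
      have : 1 ≤ (L * x) ^ 2 / k ^ 2 := by rwa [le_div_iff₀ (by positivity), one_mul]
      linarith
    have h3 : (60 / (k : ℝ)) / (2 * ((L * x) ^ 2 / k ^ 2)) ≤ (60 / k) / (1 + (L * x / k) ^ 2) :=
      div_le_div_of_nonneg_left (by positivity) (by positivity) h2
    rw [ha']
    refine le_trans ?_ h3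
    have h5 : (60 / (k : ℝ)) / (2 * ((L * x) ^ 2 / k ^ 2)) = 30 * k / (L * x) ^ 2 := by
      field_simp; norm_num
    rw [h5]
    refine div_le_div_of_nonneg_right ?_ hp.le
    linarith

theorem Yk_bound (hRH : RHs) (κ : ℝ) (hκ : 0 < κ) (hκ1 : κ < 1 / 2) :
    ∃ C T0 : ℝ, 0 < C ∧ 10 ≤ T0 ∧ ∀ T : ℝ, T0 ≤ T → ∀ t : ℝ,
    T + Real.log T ≤ t → t ≤ 2 * T - Real.log T → ∀ k : ℕ, 1 ≤ k →
    ‖Ya T k t‖ ≤ C * (1 + ‖Q1 κ T k t‖ + ‖Q2 κ k T k t‖) := by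
  obtain ⟨C1, T1, hC1, hT1, h1⟩ := MkB.zs_bound hRH
  obtain ⟨C2, T2, hC2, hT2, h2⟩ := Mk_bound hRH κ hκ hκ1
  refine ⟨60 * C2 + C1 + 1, max T1 T2, by positivity, hT1.trans (le_max_left _ _), ?_⟩
  intro T hT t ht1 ht2 k hk
  have hTa : T1 ≤ T := (le_max_left _ _).trans hT
  have hTb : T2 ≤ T := (le_max_right _ _).trans hT
  have hT10 : 10 ≤ T := hT1.trans hTa
  have hL : 0 < Real.log T := Real.log_pos (by linarith)
  have hLc : (Real.log T : ℂ) ≠ 0 := by exact_mod_cast hL.ne'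
  have hk0 : (0 : ℝ) < k := by exact_mod_cast hk
  have hk1 : (1 : ℝ) ≤ k := by exact_mod_cast hk
  have hl := MkB.ell_pos hκ1 hT10 hk
  have hl2 := MkB.ell_le_log hκ hT10 hk
  have hl3 := MkB.ell_ge hκ1 hT10 hk
  obtain ⟨l, hld⟩ : ∃ l, l = ell κ T k := ⟨_, rfl⟩
  rw [← hld] at hl hl2 hl3
  have e1 := h1 T hTa t ht1 ht2 l hl hl2 (W2 k T l) (YaB.W2_cont k T l)
    (fun u _ => YaB.W2_norm hk0 hL hl u) (fun u hu => YaB.W2_zero hl hu)
  have e2 := h2 T hTb t ht1 ht2 k hk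
  have e3 : ‖zs T t (W2 k T l) / Real.log T - Ya T k t‖ ≤ 60 / k * Mk T k t := by
    rw [MkB.zs_eq (by linarith), MkB.Mk_eq (by linarith), MkB.Ya_eq (by linarith), Finset.mul_sum,
      Finset.sum_div, ← Finset.sum_sub_distrib]
    refine (norm_sum_le _ _).trans (Finset.sum_le_sum fun s _ => ?_)
    rw [YaB.int_W2 hl hl2]
    have e4 := kernel_k (x := s.im - t) hL hk hl hl3
    obtain ⟨J, hJ⟩ : ∃ J, J = ∫ u in (0 : ℝ)..l, (1 - (u : ℂ) / l) ^ 2 *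
        cexp (-((((k : ℝ)) / Real.log T : ℝ) - I * (s.im - t : ℝ)) * u) := ⟨_, rfl⟩
    rw [← hJ] at e4 ⊢
    have e5 : (mu s : ℂ) * (Real.exp (-(s.im - t) ^ 2 / 2) : ℂ) * J / Real.log T -
        (mu s : ℂ) * (Real.exp (-(s.im - t) ^ 2 / 2) : ℂ) /
          (((k : ℝ) : ℂ) - I * (Real.log T * (s.im - t) : ℝ)) =
        (((mu s : ℝ) * Real.exp (-(s.im - t) ^ 2 / 2) : ℝ) : ℂ) *
          (J / Real.log T - 1 / (((k : ℝ) : ℂ) - I * (Real.log T * (s.im - t) : ℝ))) := by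
      push_cast
      ring
    rw [e5, norm_mul, Complex.norm_real, Real.norm_eq_abs, abs_of_nonneg (by positivity)]
    calc (mu s : ℝ) * Real.exp (-(s.im - t) ^ 2 / 2) *
          ‖J / Real.log T - 1 / (((k : ℝ) : ℂ) - I * (Real.log T * (s.im - t) : ℝ))‖
        ≤ (mu s : ℝ) * Real.exp (-(s.im - t) ^ 2 / 2) *
          ((60 / k) / (1 + (Real.log T * (s.im - t) / k) ^ 2)) :=
          mul_le_mul_of_nonneg_left e4 (by positivity)
      _ = _ := by ring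
  have e6 : ‖zs T t (W2 k T l) / Real.log T‖ ≤ ‖Q2 κ k T k t‖ + C1 := by
    rw [norm_div, Complex.norm_real, Real.norm_eq_abs, abs_of_pos hL, div_le_iff₀ hL]
    calc ‖zs T t (W2 k T l)‖ ≤ Real.log T * (‖QW T t l (W2 k T l)‖ + C1) := e1
      _ = _ := by rw [mul_comm, hld]; rfl
  have e7 : ‖Ya T k t‖ ≤ ‖zs T t (W2 k T l) / Real.log T‖ +
      ‖zs T t (W2 k T l) / Real.log T - Ya T k t‖ := by
    have : Ya T k t = zs T t (W2 k T l) / Real.log T - (zs T t (W2 k T l) / Real.log T - Ya T k t) := by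
      ring
    calc ‖Ya T k t‖ = ‖zs T t (W2 k T l) / Real.log T -
          (zs T t (W2 k T l) / Real.log T - Ya T k t)‖ := by rw [← this]
      _ ≤ _ := norm_sub_le _ _
  have hQ1 := norm_nonneg (Q1 κ T k t)
  have hQ2 := norm_nonneg (Q2 κ k T k t)
  have e8 : 60 / (k : ℝ) * Mk T k t ≤ 60 * (C2 * (1 + ‖Q1 κ T k t‖)) := by
    calc 60 / (k : ℝ) * Mk T k t ≤ 60 / k * (C2 * k * (1 + ‖Q1 κ T k t‖)) :=
          mul_le_mul_of_nonneg_left e2 (by positivity)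
      _ = _ := by field_simp
  calc ‖Ya T k t‖ ≤ (‖Q2 κ k T k t‖ + C1) + 60 * (C2 * (1 + ‖Q1 κ T k t‖)) := by linarith
    _ ≤ (60 * C2 + C1 + 1) * (1 + ‖Q1 κ T k t‖ + ‖Q2 κ k T k t‖) := by nlinarith

end Pool.Agent.P8H8.PC
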