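import Pool.Agent.P8H8.PC.NTa
import Pool.Agent.P8H8.PC.Stm
import Pool.Agent.P8H8.HF.Zero

set_option autoImplicit false

/-!
# The logarithmic derivative at the height `k / log T`: large deviations
-/

open Complex Filter Topology Set MeasureTheory

namespace Pool.Agent.P8H8.PC

open SP
open Pool.Agent.P8H8.HF (DD DD_var DD_XX)
open Pool.Agent.H24R2.JP (XX HH)

theorem QW_cont (T l : ℝ) (W : ℝ → ℂ) : Continuous (fun t => QW T t l W) := by
  unfold QW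
  apply Continuous.mul continuous_const
  apply continuous_finsetSum
  intro p hp
  rw [Finset.mem_filter, Finset.mem_Icc] at hp
  have hp0 : (p : ℂ) ≠ 0 := by exact_mod_cast (by omega : p ≠ 0)
  apply Continuous.mul _ continuous_const
  apply Continuous.mul continuous_const
  apply Continuous.const_cpow
  · fun_prop
  · exact Or.inl hp0

/-- moments for the Lebesgue measure -/
theorem leb_momW (κ : ℝ) (hκ : 0 < κ) (hκ1 : κ < 1 / 2) :
    ∃ C T0 : ℝ, 0 < C ∧ 10 ≤ T0 ∧ ∀ T : ℝ, T0 ≤ T → ∀ k : ℕ, 1 ≤ k → ∀ W : ℝ → ℂ, Continuous W →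
    (∀ u, ‖W u‖ ≤ 2) → ∀ V1 V2 : ℝ, T ≤ V1 → V1 ≤ V2 → V2 ≤ 2 * T →
    ∫ t in V1..V2, ‖QW T t (ell κ T k) W‖ ^ (2 * k) ≤ 6 * T * (C / k) ^ k := by
  obtain ⟨C, T0, hC, h10, h⟩ := LG.mom_QW κ hκ hκ1
  refine ⟨C, T0, hC, h10, fun T hT k hk W hWc hW V1 V2 hV1 hV hV2 => ?_⟩
  have hT10 : 10 ≤ T := h10.trans hT
  have hTpos : 0 < T := by linarith
  obtain ⟨D, hDdef⟩ : ∃ D, D = SG.dd κ T := ⟨_, rfl⟩
  have hD : 0 < D := by rw [hDdef]; exact Mom2.dd_pos κ T hTpos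
  have hDT : D ≤ T := by
    rw [hDdef]
    calc SG.dd κ T ≤ T ^ (1 : ℝ) := Real.rpow_le_rpow_of_exponent_le (by linarith) (by linarith)
      _ = T := Real.rpow_one T
  obtain ⟨J, hJ⟩ : ∃ J, J = ⌈T / D⌉₊ := ⟨_, rfl⟩
  obtain ⟨F, hF⟩ : ∃ F : ℝ → ℝ, F = fun t => ‖QW T t (ell κ T k) W‖ ^ (2 * k) := ⟨_, rfl⟩
  have hFc : Continuous F := by rw [hF]; exact (QW_cont T (ell κ T k) W).norm.pow _
  have hF0 : ∀ t, 0 ≤ F t := fun t => by rw [hF]; positivity
  have hwc : ∀ t0, Continuous (fun t => wt t0 D t) := fun t0 => Mom2.wt_continuous t0 D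
  have hw0 : ∀ t0 t, 0 ≤ wt t0 D t := fun t0 t => Mom2.wt_nonneg t0 D t
  have hpt : ∀ t ∈ Set.Icc V1 V2, F t ≤
      ∑ j ∈ Finset.range (J + 1), 2 * (wt (T + j * D) D t * F t) := by
    intro t ht
    obtain ⟨j, hj⟩ : ∃ j, j = ⌊(t - T) / D⌋₊ := ⟨_, rfl⟩
    have hx0 : 0 ≤ (t - T) / D := div_nonneg (by linarith [ht.1]) hD.le
    have hj1 : (j : ℝ) ≤ (t - T) / D := by rw [hj]; exact Nat.floor_le hx0
    have hj2 : (t - T) / D < j + 1 := by rw [hj]; exact Nat.lt_floor_add_one _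
    have hjJ : j ∈ Finset.range (J + 1) := by
      rw [Finset.mem_range, Nat.lt_succ_iff]
      have h1 : (t - T) / D ≤ T / D := by
        apply div_le_div_of_nonneg_right _ hD.le
        linarith [ht.2]
      have h2 : (j : ℝ) ≤ J := by
        rw [hJ]
        exact hj1.trans (h1.trans (Nat.le_ceil _))
      exact_mod_cast h2
    rw [le_div_iff₀ hD] at hj1
    rw [div_lt_iff₀ hD] at hj2
    have hw : 1 / 2 ≤ wt (T + j * D) D t := by
      unfold wt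
      have h1 : (t - (T + j * D)) ^ 2 ≤ D ^ 2 := by
        apply pow_le_pow_left₀ <;> linarith
      have h2 : -(1 / 2 : ℝ) ≤ -(t - (T + j * D)) ^ 2 / (2 * D ^ 2) := by
        rw [le_div_iff₀ (by positivity)]
        linarith
      have h3 := Real.exp_le_exp.mpr h2
      have h4 : 1 - 1 / 2 ≤ Real.exp (-(1 / 2)) := by
        have := Real.add_one_le_exp (-(1 / 2 : ℝ))
        linarith
      linarith
    have h1 : F t ≤ 2 * (wt (T + j * D) D t * F t) := by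
      have := mul_le_mul_of_nonneg_right hw (hF0 t)
      linarith
    exact h1.trans (Finset.single_le_sum (f := fun j : ℕ => 2 * (wt (T + j * D) D t * F t))
      (fun i _ => mul_nonneg (by norm_num) (mul_nonneg (hw0 _ _) (hF0 t))) hjJ)
  have hci : ∀ j : ℕ, Continuous (fun t => 2 * (wt (T + j * D) D t * F t)) := fun j =>
    continuous_const.mul ((hwc _).mul hFc)
  have h1 : ∫ t in V1..V2, F t ≤ ∫ t in V1..V2,
      ∑ j ∈ Finset.range (J + 1), 2 * (wt (T + j * D) D t * F t) := by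
    apply intervalIntegral.integral_mono_on hV (hFc.intervalIntegrable _ _)
    · exact (continuous_finsetSum _ fun j _ => hci j).intervalIntegrable _ _
    · exact hpt
  have h2 : ∀ j : ℕ, ∫ t in V1..V2, 2 * (wt (T + j * D) D t * F t) ≤ 2 * (D * (C / k) ^ k) := by
    intro j
    obtain ⟨hi, hm⟩ := h T hT (T + j * D) k W hk hWc hW
    rw [intervalIntegral.integral_const_mul, intervalIntegral.integral_of_le hV]
    apply mul_le_mul_of_nonneg_left _ (by norm_num)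
    rw [← hDdef] at hi hm
    have hm' : ∫ t : ℝ, wt (T + j * D) D t * F t ≤ D * (C / k) ^ k := by rw [hF]; exact hm
    refine le_trans ?_ hm'
    have hi' : Integrable (fun t : ℝ => wt (T + j * D) D t * F t) := by rw [hF]; exact hi
    exact setIntegral_le_integral hi'
      (Filter.Eventually.of_forall fun t => mul_nonneg (hw0 _ _) (hF0 t))
  rw [intervalIntegral.integral_finsetSum
    (fun j _ => (hci j).intervalIntegrable _ _)] at h1
  have h3 : ∑ j ∈ Finset.range (J + 1), ∫ t in V1..V2, 2 * (wt (T + j * D) D t * F t) ≤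
      ∑ j ∈ Finset.range (J + 1), 2 * (D * (C / k) ^ k) := Finset.sum_le_sum fun j _ => h2 j
  rw [Finset.sum_const, Finset.card_range, nsmul_eq_mul] at h3
  have hJ1 : (J : ℝ) ≤ T / D + 1 := by rw [hJ]; exact (Nat.ceil_lt_add_one (by positivity)).le
  have hJD : ((J + 1 : ℕ) : ℝ) * D ≤ 3 * T := by
    push_cast
    have : (J : ℝ) * D ≤ (T / D + 1) * D := mul_le_mul_of_nonneg_right hJ1 hD.le
    have e : (T / D + 1) * D = T + D := by field_simp
    rw [e] at this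
    linarith
  have hCk : 0 ≤ (C / k) ^ k := by positivity
  have e0 : ∫ t in V1..V2, ‖QW T t (ell κ T k) W‖ ^ (2 * k) = ∫ t in V1..V2, F t := by rw [hF]
  rw [e0]
  calc ∫ t in V1..V2, F t ≤ _ := h1
    _ ≤ ((J + 1 : ℕ) : ℝ) * (2 * (D * (C / k) ^ k)) := h3
    _ = 2 * (((J + 1 : ℕ) : ℝ) * D) * (C / k) ^ k := by ring
    _ ≤ 2 * (3 * T) * (C / k) ^ k := by
        apply mul_le_mul_of_nonneg_right _ hCk
        linarith
    _ = 6 * T * (C / k) ^ k := by ring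

/-- the logarithmic derivative of the completed zeta function -/
theorem Lam_bound (hRH : RHs) : ∃ C T0 : ℝ, 0 < C ∧ 10 ≤ T0 ∧ ∀ T : ℝ, T0 ≤ T → ∀ t : ℝ,
    T + Real.log T ≤ t → t ≤ 2 * T - Real.log T → ∀ k : ℕ, 1 ≤ k → 16 * (k : ℝ) ≤ Real.log T →
    completedRiemannZeta (⟨1 / 2 + k / Real.log T, t⟩ : ℂ) ≠ 0 ∧
    ‖logDeriv completedRiemannZeta (⟨1 / 2 + k / Real.log T, t⟩ : ℂ)‖ ≤ Real.log T * (C + ‖Ya T k t‖) := by
  classical
  obtain ⟨C1, T1, hC1, hT1, hloc⟩ := loc_exp hRH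
  obtain ⟨C2, hC2, hg⟩ := gauss_zeros
  refine ⟨C1 + C2, max T1 (Real.exp 16), by positivity,
    hT1.trans (le_max_left _ _), fun T hT t ht1 ht2 k hk hkL => ?_⟩
  have hTT1 : T1 ≤ T := (le_max_left _ _).trans hT
  have hT10 : 10 ≤ T := hT1.trans hTT1
  have hTe : Real.exp 16 ≤ T := (le_max_right _ _).trans hT
  have hLb : 16 ≤ Real.log T := (Real.le_log_iff_exp_le (by linarith)).2 hTe
  obtain ⟨L, hL⟩ : ∃ L, L = Real.log T := ⟨_, rfl⟩
  obtain ⟨a, ha'⟩ : ∃ a : ℝ, a = (k : ℝ) := ⟨_, rfl⟩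
  have ha : 0 < a := by rw [ha']; exact_mod_cast hk
  rw [← hL] at ht1 ht2 hkL hLb ⊢
  rw [← ha'] at hkL ⊢
  have hL0 : 0 < L := by linarith
  have hx0 : 0 < a / L := by positivity
  have hx1 : a / L ≤ 1 / 16 := by
    rw [div_le_iff₀ hL0]; linarith
  have hfin := ZZ_finite T (by linarith)
  obtain ⟨Z, hZ⟩ : ∃ Z, Z = hfin.toFinset := ⟨_, rfl⟩
  have hYa : (L : ℂ) * Ya T a t = ∑ s ∈ Z, (mu s : ℂ) *
      ((Real.exp (-(t - s.im) ^ 2 / 2) : ℂ) / (((a / L : ℝ) : ℂ) + I * ((t - s.im : ℝ) : ℂ))) := by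
    unfold Ya
    rw [finsum_mem_eq_finite_toFinset_sum _ hfin, Finset.mul_sum, ← hZ]
    refine Finset.sum_congr rfl fun s _ => ?_
    have hLc : (L : ℂ) ≠ 0 := by exact_mod_cast hL0.ne'
    have e0 : (s.im - t) ^ 2 = (t - s.im) ^ 2 := by ring
    have e1 : (a : ℂ) - I * ((Real.log T * (s.im - t) : ℝ) : ℂ) =
        L * (((a / L : ℝ) : ℂ) + I * ((t - s.im : ℝ) : ℂ)) := by
      rw [← hL]
      push_cast
      field_simp
      ring
    rw [e1, e0]
    field_simp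
  have hG : ∑ s ∈ Z, (mu s : ℝ) * Real.exp (-(t - s.im) ^ 2 / 2) ≤ C2 * L := by
    have := hg T hT10 t
    rw [finsum_mem_eq_finite_toFinset_sum _ hfin, ← hZ, ← hL] at this
    refine le_trans (le_of_eq ?_) this
    refine Finset.sum_congr rfl fun s _ => ?_
    have e0 : (s.im - t) ^ 2 = (t - s.im) ^ 2 := by ring
    rw [e0]
  have hlocal : ∑ᶠ s ∈ {s : ℂ | s ∈ ZZ T ∧ |s.im - t| ≤ 1},
      (mu s : ℂ) / (((a / L : ℝ) : ℂ) + I * (t - s.im : ℝ)) =
      ∑ s ∈ Z.filter (fun s => |s.im - t| ≤ 1),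
        (mu s : ℂ) * (1 / (((a / L : ℝ) : ℂ) + I * (t - s.im : ℝ))) := by
    have e : {s : ℂ | s ∈ ZZ T ∧ |s.im - t| ≤ 1} =
        ((Z.filter (fun s => |s.im - t| ≤ 1) : Finset ℂ) : Set ℂ) := by
      ext s
      simp [hZ]
    rw [e, finsum_mem_coe_finset]
    refine Finset.sum_congr rfl fun s _ => ?_
    rw [mul_one_div]
  obtain ⟨h0, h1, -⟩ := hloc T hTT1 t (by linarith) (by linarith) (a / L) t hx0 hx1 (by simp)
  refine ⟨h0, ?_⟩
  rw [hlocal, ← hL] at h1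
  have h9 : ‖∑ s ∈ Z.filter (fun s => |s.im - t| ≤ 1),
      (mu s : ℂ) * (1 / (((a / L : ℝ) : ℂ) + I * (t - s.im : ℝ))) - (L : ℂ) * Ya T a t‖ ≤
      C2 * L := by
    rw [hYa, Finset.sum_filter, ← Finset.sum_sub_distrib]
    refine (norm_sum_le _ _).trans (le_trans (Finset.sum_le_sum fun s _ => ?_) hG)
    have h10 := kernel_gauss (a / L) (t - s.im) (|s.im - t| ≤ 1) (by rw [abs_sub_comm])
    have e : (if |s.im - t| ≤ 1 then (mu s : ℂ) *
        (1 / (((a / L : ℝ) : ℂ) + I * (t - s.im : ℝ))) else 0) -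
        (mu s : ℂ) * ((Real.exp (-(t - s.im) ^ 2 / 2) : ℂ) /
          (((a / L : ℝ) : ℂ) + I * ((t - s.im : ℝ) : ℂ))) =
        (mu s : ℂ) * ((if |s.im - t| ≤ 1 then
        (1 / (((a / L : ℝ) : ℂ) + I * (t - s.im : ℝ))) else 0) -
        ((Real.exp (-(t - s.im) ^ 2 / 2) : ℂ) /
          (((a / L : ℝ) : ℂ) + I * ((t - s.im : ℝ) : ℂ)))) := by
      split_ifs <;> ring
    rw [e, norm_mul, Complex.norm_natCast]
    exact mul_le_mul_of_nonneg_left h10 (Nat.cast_nonneg _)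
  have h11 : ‖(L : ℂ) * Ya T a t‖ = L * ‖Ya T a t‖ := by
    rw [norm_mul, Complex.norm_real, Real.norm_of_nonneg hL0.le]
  obtain ⟨X0, hX0⟩ : ∃ X0, X0 = logDeriv completedRiemannZeta (⟨1 / 2 + a / L, t⟩ : ℂ) := ⟨_, rfl⟩
  obtain ⟨X2, hX2⟩ : ∃ X2, X2 = ∑ s ∈ Z.filter (fun s => |s.im - t| ≤ 1),
      (mu s : ℂ) * (1 / (((a / L : ℝ) : ℂ) + I * (t - s.im : ℝ))) := ⟨_, rfl⟩
  rw [← hX0, ← hX2] at h1
  rw [← hX2] at h9
  rw [← hX0]
  calc ‖X0‖ = ‖(X0 - X2) + (X2 - (L : ℂ) * Ya T a t) + (L : ℂ) * Ya T a t‖ := by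
        congr 1; ring
    _ ≤ ‖X0 - X2‖ + ‖X2 - (L : ℂ) * Ya T a t‖ + ‖(L : ℂ) * Ya T a t‖ := norm_add₃_le
    _ ≤ C1 * L + C2 * L + L * ‖Ya T a t‖ := by
        rw [h11]; linarith
    _ = L * (C1 + C2 + ‖Ya T a t‖) := by ring

/-- the logarithmic derivative of the flow at time `0` -/
theorem LL_zero {z : ℂ} (him : 0 < z.im) (hne : completedRiemannZeta (1 / 2 + z) ≠ 0)
    (hz : 4 * z ^ 2 - 1 ≠ 0) :
    LL 0 z = 8 * z / (4 * z ^ 2 - 1) + logDeriv completedRiemannZeta (1 / 2 + z) := by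
  have hXX : ∀ w : ℂ, 0 < w.im → XX w = (4 * w ^ 2 - 1) * completedRiemannZeta (1 / 2 + w) := by
    intro w hw
    rw [Pool.Agent.H24R2.JP.ZetaTask.part1 w hw, SG.AlgAux.Lam_eq (by simpa using hw.ne')]
    unfold HH
    ring
  have hd : HasDerivAt (DD 0 0) (DD 1 0 z) z := DD_var 0 le_rfl z
  rw [DD_XX] at hd
  have e1 : LL 0 z = logDeriv XX z := by
    unfold LL
    rw [logDeriv_apply, hd.deriv, DD_XX]
  rw [e1]
  have hopen : {w : ℂ | 0 < w.im} ∈ 𝓝 z := (isOpen_lt continuous_const Complex.continuous_im).mem_nhds him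
  have heq : XX =ᶠ[𝓝 z] fun w => (4 * w ^ 2 - 1) * completedRiemannZeta (1 / 2 + w) := by
    filter_upwards [hopen] with w hw
    exact hXX w hw
  have hd1 : HasDerivAt (fun w : ℂ => 4 * w ^ 2 - 1) (8 * z) z := by
    have h1 := ((hasDerivAt_pow 2 z).const_mul (4 : ℂ)).sub_const 1
    have e : (4 : ℂ) * (((2 : ℕ) : ℂ) * z ^ (2 - 1)) = 8 * z := by
      norm_num
      ring
    rw [e] at h1
    exact h1
  have h1z : (1 / 2 + z : ℂ).im = z.im := by simp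
  have hd2 : DifferentiableAt ℂ completedRiemannZeta (1 / 2 + z) := by
    apply differentiableAt_completedZeta
    · intro h; rw [h] at h1z; simp at h1z; linarith
    · intro h; rw [h] at h1z; simp at h1z; linarith
  have hd3 : HasDerivAt (fun w : ℂ => completedRiemannZeta (1 / 2 + w)) (deriv completedRiemannZeta (1 / 2 + z)) z := by
    have := hd2.hasDerivAt.comp_const_add (1 / 2) z
    exact this
  have hd4 := hd1.mul hd3
  rw [logDeriv_apply, heq.deriv_eq, hXX z him, logDeriv_apply]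
  have e2 : deriv (fun w => (4 * w ^ 2 - 1) * completedRiemannZeta (1 / 2 + w)) z =
      8 * z * completedRiemannZeta (1 / 2 + z) + (4 * z ^ 2 - 1) * deriv completedRiemannZeta (1 / 2 + z) :=
    hd4.deriv
  rw [e2]
  obtain ⟨A, hA⟩ : ∃ A, A = completedRiemannZeta (1 / 2 + z) := ⟨_, rfl⟩
  obtain ⟨B, hB⟩ : ∃ B, B = 4 * z ^ 2 - 1 := ⟨_, rfl⟩
  rw [← hA] at hne ⊢
  rw [← hB] at hz ⊢
  field_simp

end Pool.Agent.P8H8.PC
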