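import Pool.Agent.P8H8.PC.Small

set_option autoImplicit false

/-!
# Small gaps are rarer than every power
-/

namespace Pool.Agent.P8H8.PC

open Filter Topology
open Pool.Agent.P8H8.HF

lemma pow_cmp {C ρ : ℝ} (hC : 0 ≤ C) (hρ : 0 < ρ) (A k : ℕ) (hk : 1 ≤ k) :
    (C / k) ^ k ≤ Real.exp (C / ρ ^ A) * (ρ ^ A) ^ k := by
  have hk0 : (0 : ℝ) < k := by exact_mod_cast hk
  have hρA : 0 < ρ ^ A := by positivity
  have h1 : (C / k) ^ k = (C / ρ ^ A) ^ k / (k : ℝ) ^ k * (ρ ^ A) ^ k := by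
    rw [← div_pow, ← mul_pow]
    congr 1
    field_simp
  rw [h1]
  apply mul_le_mul_of_nonneg_right _ (by positivity)
  have h2 := Real.pow_div_factorial_le_exp (C / ρ ^ A) (by positivity) k
  refine le_trans ?_ h2
  apply div_le_div_of_nonneg_left (by positivity) (by positivity)
  exact_mod_cast Nat.factorial_le_pow k

theorem rare0 (hP : S_PF) (hH : S_HERG) (hTr : S_TRANS) (hMv : S_MOV) (hCl : S_CLUS) (RH : RiemannHypothesis)
    (A : ℕ) (c B : ℝ) (hc : 0 < c) (hB : 1 ≤ B) : ∃ K : ℝ, 0 < K ∧ ∀ ε : ℝ, 0 < ε → ∀ᶠ T : ℝ in atTop,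
      ∀ σ : ℝ, 0 < σ → c ≤ σ * Real.log T ^ 2 → σ * Real.log T ^ 2 ≤ B →
      ∀ S : Finset ℕ, (∀ n ∈ S, GG σ n ≤ T ∧ gg T σ n ≤ ε) → (S.card : ℝ) ≤ K * ε ^ A * MT T := by
  obtain ⟨M, C, hM, hC, hs⟩ := small_gaps hP hH hTr hMv hCl RH
  obtain ⟨μ, hμ⟩ : ∃ μ, μ = min (c / 8) (1 / (750000 * M ^ 2)) := ⟨_, rfl⟩
  have hμ0 : 0 < μ := by rw [hμ]; positivity
  obtain ⟨r, hr⟩ : ∃ r, r = Real.sqrt μ / 7 := ⟨_, rfl⟩
  have hr0 : 0 < r := by rw [hr]; positivity
  obtain ⟨ρ, hρ⟩ : ∃ ρ, ρ = (1 / 40 : ℝ) ^ (5 * M) := ⟨_, rfl⟩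
  have hρ0 : 0 < ρ := by rw [hρ]; positivity
  have hρ1 : ρ < 1 := by
    rw [hρ]
    exact Real.rpow_lt_one (by norm_num) (by norm_num) (by linarith)
  obtain ⟨k0, hk0⟩ : ∃ k0 : ℕ, k0 = ⌈2 * C + 128 * M * B + 1000 * B⌉₊ + 1 := ⟨_, rfl⟩
  have hk0r : 2 * C + 128 * M * B + 1000 * B ≤ k0 := by
    have := Nat.le_ceil (2 * C + 128 * M * B + 1000 * B)
    rw [hk0]
    push_cast
    linarith
  have hMB : 0 ≤ 128 * M * B := by positivity
  have hthr : ∀ k : ℕ, thr M (c / 4) k = μ * (ρ ^ k) ^ 2 := by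
    intro k
    unfold thr
    rw [hμ, hρ]
    congr 1
    · congr 1
      ring
    · rw [← pow_mul, ← Real.rpow_mul_natCast (by norm_num)]
      congr 1
      push_cast
      ring
  obtain ⟨e0, he0⟩ : ∃ e0, e0 = r * ρ ^ k0 := ⟨_, rfl⟩
  have he00 : 0 < e0 := by rw [he0]; positivity
  refine ⟨600 * M * Real.exp (C / ρ ^ A) / (r * ρ) ^ A + 3 / e0 ^ A, by positivity, fun ε hε => ?_⟩
  rcases le_or_gt ε e0 with hεe | hεe
  · have hx : 0 < ε / e0 := by positivity
    obtain ⟨n, hn1, hn2⟩ := exists_nat_pow_near_of_lt_one hx ((div_le_one he00).2 hεe) hρ0 hρ1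
    rw [lt_div_iff₀ he00] at hn1
    rw [div_le_iff₀ he00] at hn2
    obtain ⟨k, hk⟩ : ∃ k, k = k0 + n := ⟨_, rfl⟩
    have hk1 : 1 ≤ k := by rw [hk, hk0]; omega
    have hkr : (k0 : ℝ) ≤ k := by rw [hk]; push_cast; linarith [Nat.cast_nonneg (α := ℝ) n]
    have hek : ε ≤ r * ρ ^ k := by
      refine hn2.trans (le_of_eq ?_)
      rw [hk, he0, pow_add]
      ring
    have hek1 : r * ρ ^ (k + 1) ≤ ε := by
      refine le_trans (le_of_eq ?_) hn1.le
      rw [hk, he0, show k0 + n + 1 = (n + 1) + k0 by ring, pow_add]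
      ring
    have hkp : (0 : ℝ) < k := by exact_mod_cast hk1
    filter_upwards [hs B c k hB hk1 (by linarith) (by linarith) (by nlinarith), eventually_gt_atTop 1,
      time_ok (K3 := B) (by linarith)] with T g1 g2 g3 σ hσ hcσ hσB S hS
    obtain ⟨t1, -, -⟩ := g3 σ hσ.le hσB
    have hL0 : 0 < Real.log T := Real.log_pos g2
    have hmono := GG_mono RH hσ.le t1.le
    have h1 := g1 σ hσ hcσ hσB S (by
      intro m hm
      obtain ⟨a1, a2⟩ := hS m hm
      refine ⟨a1, ?_⟩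
      rw [hthr]
      have e1 : Real.log T * (GG σ (m + 1) - GG σ m) = 2 * Real.pi * gg T σ m := by
        unfold gg lam
        field_simp
      rw [e1]
      have hgn : 0 ≤ gg T σ m := by
        unfold gg
        apply mul_nonneg
        · unfold lam; positivity
        · exact sub_nonneg.2 (hmono (Nat.le_succ m))
      have h2 : 2 * Real.pi * gg T σ m ≤ 2 * Real.pi * (r * ρ ^ k) :=
        mul_le_mul_of_nonneg_left (a2.trans hek) (by positivity)
      have h3 : (2 * Real.pi * gg T σ m) ^ 2 ≤ (2 * Real.pi * (r * ρ ^ k)) ^ 2 :=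
        pow_le_pow_left₀ (by positivity) h2 2
      refine lt_of_le_of_lt h3 ?_
      have h4 : (2 * Real.pi * (r * ρ ^ k)) ^ 2 = (2 * Real.pi / 7) ^ 2 * (μ * (ρ ^ k) ^ 2) := by
        have h5 := Real.sq_sqrt hμ0.le
        rw [hr]
        calc (2 * Real.pi * (Real.sqrt μ / 7 * ρ ^ k)) ^ 2 = (2 * Real.pi / 7) ^ 2 * (Real.sqrt μ ^ 2 * (ρ ^ k) ^ 2) := by ring
          _ = _ := by rw [h5]
      rw [h4]
      have h6 : (2 * Real.pi / 7) ^ 2 < 1 := by
        have := Real.pi_lt_d2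
        have := Real.pi_pos
        rw [sq_lt_one_iff₀ (by positivity), div_lt_one (by norm_num)]
        linarith
      have h7 : 0 < μ * (ρ ^ k) ^ 2 := by positivity
      nlinarith)
    refine h1.trans ?_
    have h8 : T * Real.log T = 2 * Real.pi * MT T := by
      unfold MT
      field_simp
    have hMT0 : 0 < MT T := by
      unfold MT
      positivity
    have h9 := pow_cmp (C := C) (by linarith) hρ0 A k hk1
    have h10 : (ρ ^ A) ^ k ≤ ε ^ A / (r * ρ) ^ A := by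
      rw [le_div_iff₀ (by positivity)]
      calc (ρ ^ A) ^ k * (r * ρ) ^ A = (r * ρ ^ (k + 1)) ^ A := by
            rw [← pow_mul, mul_comm A k, pow_mul, ← mul_pow]
            congr 1
            ring
        _ ≤ ε ^ A := pow_le_pow_left₀ (by positivity) hek1 A
    have h11 : (C / k) ^ k ≤ Real.exp (C / ρ ^ A) * (ε ^ A / (r * ρ) ^ A) :=
      h9.trans (mul_le_mul_of_nonneg_left h10 (Real.exp_pos _).le)
    have hpi : 82 * (2 * Real.pi) ≤ 600 := by have := Real.pi_lt_d2; linarith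
    calc 82 * M * (C / k) ^ k * (T * Real.log T) = 82 * (2 * Real.pi) * (M * (C / k) ^ k * MT T) := by rw [h8]; ring
      _ ≤ 600 * (M * (C / k) ^ k * MT T) := mul_le_mul_of_nonneg_right hpi (by positivity)
      _ = 600 * M * MT T * (C / k) ^ k := by ring
      _ ≤ 600 * M * MT T * (Real.exp (C / ρ ^ A) * (ε ^ A / (r * ρ) ^ A)) :=
          mul_le_mul_of_nonneg_left h11 (by positivity)
      _ = 600 * M * Real.exp (C / ρ ^ A) / (r * ρ) ^ A * ε ^ A * MT T := by ring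
      _ ≤ (600 * M * Real.exp (C / ρ ^ A) / (r * ρ) ^ A + 3 / e0 ^ A) * ε ^ A * MT T := by
          apply mul_le_mul_of_nonneg_right _ hMT0.le
          apply mul_le_mul_of_nonneg_right _ (by positivity)
          have : 0 < 3 / e0 ^ A := by positivity
          linarith
  · filter_upwards [pos_idx RH (K := B) (η := 1 / 100) (by linarith) (by norm_num) le_rfl,
      MT_tendsto.eventually_ge_atTop 1, eventually_gt_atTop 0] with T g1 g2 g3 σ hσ hcσ hσB S hS
    have hsub : S ⊆ Finset.range (⌊2 * MT T⌋₊ + 1) := by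
      intro n hn
      rw [Finset.mem_range, Nat.lt_succ_iff]
      exact Nat.le_floor ((g1 σ hσ.le hσB n).1 (by linarith [(hS n hn).1]))
    have h3 := Finset.card_le_card hsub
    rw [Finset.card_range] at h3
    have h4 : (S.card : ℝ) ≤ 3 * MT T := by
      have h5 : ((⌊2 * MT T⌋₊ : ℕ) : ℝ) ≤ 2 * MT T := Nat.floor_le (by linarith)
      have h6 : (S.card : ℝ) ≤ ((⌊2 * MT T⌋₊ + 1 : ℕ) : ℝ) := by exact_mod_cast h3
      push_cast at h6
      linarith
    refine h4.trans ?_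
    apply mul_le_mul_of_nonneg_right _ (by linarith)
    have h7 : (3 : ℝ) ≤ 3 / e0 ^ A * ε ^ A := by
      rw [div_mul_eq_mul_div, le_div_iff₀ (by positivity)]
      have : e0 ^ A ≤ ε ^ A := pow_le_pow_left₀ he00.le hεe.le A
      linarith
    have h8 : 0 < 600 * M * Real.exp (C / ρ ^ A) / (r * ρ) ^ A := by positivity
    have h9 : 0 < ε ^ A := by positivity
    nlinarith

end Pool.Agent.P8H8.PC
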