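import Pool.Agent.P8H8.PC.Rare
import Pool.Agent.P8H8.HF.Exc

set_option autoImplicit false

/-!
# Small gaps are rarer than every power, uniformly in the microscopic time
-/

namespace Pool.Agent.P8H8.PC

open Filter Topology
open Pool.Agent.P8H8.HF

lemma pp_id (g u : ℝ) : max (u - g) 0 = max (g - u) 0 - g + u := by
  rcases le_total g u with h | h
  · rw [max_eq_left (by linarith), max_eq_right (by linarith)]
    ring
  · rw [max_eq_right (by linarith), max_eq_left (by linarith)]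
    ring

theorem rare1 (hP : S_PF) (hH : S_HERG) (hTr : S_TRANS) (hMv : S_MOV) (hCl : S_CLUS) (RH : RiemannHypothesis)
    (A : ℕ) (c : ℝ) (hc : 0 < c) : ∃ K : ℝ, 0 < K ∧ ∀ B : ℝ, ∀ ε : ℝ, 0 < ε → ∀ᶠ T : ℝ in atTop,
      ∀ σ : ℝ, 0 < σ → c ≤ σ * Real.log T ^ 2 → σ * Real.log T ^ 2 ≤ B →
      ∀ S : Finset ℕ, (∀ n ∈ S, GG σ n ≤ T ∧ gg T σ n ≤ ε) → (S.card : ℝ) ≤ K * ε ^ A * MT T := by
  classical
  obtain ⟨K0, hK0, h0⟩ := rare0 hP hH hTr hMv hCl RH A c (max c 1) hc (le_max_right _ _)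
  refine ⟨2 ^ (A + 1) * K0 + 20, by positivity, fun B1 ε hε => ?_⟩
  obtain ⟨B, hBd⟩ : ∃ B, B = max B1 (max c 1) := ⟨_, rfl⟩
  have hB1 : B1 ≤ B := by rw [hBd]; exact le_max_left _ _
  have hB2 : max c 1 ≤ B := by rw [hBd]; exact le_max_right _ _
  have hBc : c ≤ B := (le_max_left _ _).trans hB2
  have hB0 : 0 < B := lt_of_lt_of_le hc hBc
  rcases le_or_gt ε 1 with hε1 | hε1
  · obtain ⟨η, hη⟩ : ∃ η, η = ε ^ (A + 1) / 100 := ⟨_, rfl⟩
    have hη0 : 0 < η := by rw [hη]; positivity
    have hεA : ε ^ (A + 1) ≤ 1 := pow_le_one₀ hε.le hε1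
    have hη1 : η ≤ 1 / 100 := by rw [hη]; linarith
    have hηε : 100 * η = ε ^ A * ε := by rw [hη]; ring
    filter_upwards [h0 (2 * ε) (by positivity), count_unif RH B η hB0 hη0 (by linarith), time_ok hB0,
      SX_all RH hB0 (s := 2 * ε) (ε := η) (by positivity) hη0, NT_ev,
      MT_tendsto.eventually_ge_atTop (10 / η + 1000), lam_tendsto.eventually_ge_atTop 1,
      Real.tendsto_log_atTop.eventually_ge_atTop 1] with T g1 g2 g3 g4 g5 g6 g7 g8 σ hσ hcσ hσB' S hS
    have hσB : σ * Real.log T ^ 2 ≤ B := hσB'.trans hB1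
    obtain ⟨t1, -, -⟩ := g3 σ hσ.le hσB
    have hL2 : 0 < Real.log T ^ 2 := by positivity
    obtain ⟨σ0, hσ0⟩ : ∃ σ0, σ0 = c / Real.log T ^ 2 := ⟨_, rfl⟩
    have hσ00 : 0 < σ0 := by rw [hσ0]; positivity
    have hσ0c : σ0 * Real.log T ^ 2 = c := by rw [hσ0]; exact div_mul_cancel₀ _ hL2.ne'
    have hσσ : σ0 ≤ σ := by rw [hσ0, div_le_iff₀ hL2]; exact hcσ
    obtain ⟨t2, -, -⟩ := g3 σ0 hσ00.le (by rw [hσ0c]; exact hBc)
    obtain ⟨N, hN⟩ : ∃ N, N = NT T := ⟨_, rfl⟩
    rw [← hN] at g4 g5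
    obtain ⟨n1, n2⟩ := g5
    have hη10 : 0 < 10 / η := by positivity
    have hMT0 : 1000 ≤ MT T := by linarith
    have hMTη : 10 ≤ η * MT T := by
      have : 10 / η ≤ MT T := by linarith
      rw [div_le_iff₀ hη0] at this
      linarith
    have hlam0 : 0 < lam T := by linarith
    have hGT : ∀ x : ℝ, x ≤ T ↔ lam T * x ≤ MT T := by
      intro x
      rw [MT_eq, mul_comm T (lam T)]
      exact (mul_le_mul_iff_right₀ hlam0).symm
    have hgg : ∀ n, 0 ≤ gg T σ n := gg_nonneg RH hlam0.le hσ.le t1.le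
    have hgg0 : ∀ n, 0 ≤ gg T σ0 n := gg_nonneg RH hlam0.le hσ00.le t2.le
    -- the part above N
    have hSb : ((S.filter (fun n => N ≤ n)).card : ℝ) ≤ 3 * η * MT T := by
      have hsub : S.filter (fun n => N ≤ n) ⊆ Finset.Ico N (⌊(1 + 2 * η) * MT T⌋₊ + 1) := by
        intro n hn
        rw [Finset.mem_filter] at hn
        rw [Finset.mem_Ico]
        refine ⟨hn.2, Nat.lt_succ_of_le (Nat.le_floor ?_)⟩
        have hnT := (hS n hn.1).1
        by_contra hcon
        rw [not_le] at hcon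
        obtain ⟨m, hm⟩ : ∃ m, m = ⌈(1 + 2 * η) * MT T⌉₊ := ⟨_, rfl⟩
        have hm1 : (1 + 2 * η) * MT T ≤ m := by rw [hm]; exact Nat.le_ceil _
        have hm2 : (m : ℝ) < (1 + 2 * η) * MT T + 1 := by rw [hm]; exact Nat.ceil_lt_add_one (by positivity)
        have hmn : m ≤ n := by
          have : m ≤ n := by rw [hm]; exact Nat.ceil_le.2 hcon.le
          exact this
        obtain ⟨c1, c2⟩ := g2 σ hσ.le hσB m (by nlinarith) (by nlinarith)
        rw [abs_le] at c1
        have h2 : 0 ≤ lam T * GG σ 0 := mul_nonneg hlam0.le (GG_nonneg RH hσ.le t1.le 0)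
        have h3 : lam T * GG σ m ≤ MT T := (hGT _).1 ((GG_mono RH hσ.le t1.le hmn).trans hnT)
        have h4 : (1 - η) * m ≤ MT T := by nlinarith [c1.1]
        have h5 : (1 - η) * ((1 + 2 * η) * MT T) ≤ (1 - η) * m := mul_le_mul_of_nonneg_left hm1 (by linarith)
        have h6 : 0 < η * MT T * (1 - 2 * η) := mul_pos (by positivity) (by linarith)
        nlinarith
      have h1 := Finset.card_le_card hsub
      rw [Nat.card_Ico] at h1
      have h2 : ((⌊(1 + 2 * η) * MT T⌋₊ : ℕ) : ℝ) ≤ (1 + 2 * η) * MT T := Nat.floor_le (by positivity)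
      have h3 : (S.filter (fun n => N ≤ n)).card + N ≤ ⌊(1 + 2 * η) * MT T⌋₊ + 1 + N := by omega
      rcases Nat.le_total N (⌊(1 + 2 * η) * MT T⌋₊ + 1) with h4 | h4
      · have h5 : (S.filter (fun n => N ≤ n)).card + N ≤ ⌊(1 + 2 * η) * MT T⌋₊ + 1 := by omega
        have h6 : (((S.filter (fun n => N ≤ n)).card + N : ℕ) : ℝ) ≤ ((⌊(1 + 2 * η) * MT T⌋₊ + 1 : ℕ) : ℝ) := by
          exact_mod_cast h5
        push_cast at h6
        linarith
      · have h5 : (S.filter (fun n => N ≤ n)).card = 0 := by omega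
        rw [h5]
        simp
        positivity
    -- the part below N
    have hsumS : ∀ τ u : ℝ, ∑ n ∈ Finset.range N, max (u - gg T τ n) 0 =
        SX T τ u N - lam T * (GG τ N - GG τ 0) + u * N := by
      intro τ u
      rw [← gg_sum]
      unfold SX
      rw [← Finset.sum_sub_distrib]
      have e : u * (N : ℝ) = ∑ n ∈ Finset.range N, u := by
        rw [Finset.sum_const, Finset.card_range, nsmul_eq_mul]
        ring
      rw [e, ← Finset.sum_add_distrib]
      exact Finset.sum_congr rfl fun n _ => pp_id _ _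
    have hNM : MT T / 2 ≤ N := by linarith
    have hNM2 : (N : ℝ) ≤ 2 * MT T := by linarith
    obtain ⟨c1, -⟩ := g2 σ hσ.le hσB N hNM hNM2
    obtain ⟨c2, -⟩ := g2 σ0 hσ00.le (by rw [hσ0c]; exact hBc) N hNM hNM2
    rw [abs_le] at c1 c2
    have hSXm := g4 σ0 σ hσ00.le hσσ hσB
    have hcmp : ∑ n ∈ Finset.range N, max (2 * ε - gg T σ n) 0 ≤
        ∑ n ∈ Finset.range N, max (2 * ε - gg T σ0 n) 0 + 3 * η * MT T := by
      rw [hsumS, hsumS]
      have : 2 * (η * N) ≤ 2 * (η * MT T) := by nlinarith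
      linarith [c1.1, c2.2]
    have hSa : ε * ((S.filter (fun n => ¬ N ≤ n)).card : ℝ) ≤ ∑ n ∈ Finset.range N, max (2 * ε - gg T σ n) 0 := by
      have h1 : ∑ n ∈ S.filter (fun n => ¬ N ≤ n), max (2 * ε - gg T σ n) 0 ≤
          ∑ n ∈ Finset.range N, max (2 * ε - gg T σ n) 0 := by
        apply Finset.sum_le_sum_of_subset_of_nonneg
        · intro n hn
          rw [Finset.mem_filter] at hn
          rw [Finset.mem_range]
          omega
        · intro n _ _
          exact le_max_right _ _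
      refine le_trans ?_ h1
      rw [mul_comm, ← nsmul_eq_mul, ← Finset.sum_const]
      apply Finset.sum_le_sum
      intro n hn
      rw [Finset.mem_filter] at hn
      have := (hS n hn.1).2
      exact le_trans (by linarith) (le_max_left _ _)
    have hup : ∑ n ∈ Finset.range N, max (2 * ε - gg T σ0 n) 0 ≤
        2 * ε * (((Finset.range N).filter (fun n => gg T σ0 n ≤ 2 * ε)).card : ℝ) := by
      rw [mul_comm (2 * ε) _, ← nsmul_eq_mul, ← Finset.sum_const, Finset.sum_filter]
      apply Finset.sum_le_sum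
      intro n _
      have h2 := hgg0 n
      split_ifs with h
      · exact max_le (by linarith) (by linarith)
      · exact max_le (by linarith) le_rfl
    have hcount : (((Finset.range N).filter (fun n => gg T σ0 n ≤ 2 * ε)).card : ℝ) ≤
        K0 * (2 * ε) ^ A * MT T + 4 * η * MT T := by
      obtain ⟨S1, hS1⟩ : ∃ S1, S1 = ((Finset.range N).filter (fun n => gg T σ0 n ≤ 2 * ε)).filter
        (fun n => GG σ0 n ≤ T) := ⟨_, rfl⟩
      obtain ⟨S2, hS2⟩ : ∃ S2, S2 = (Finset.range N).filter (fun n => T < GG σ0 n) := ⟨_, rfl⟩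
      have hcov : (Finset.range N).filter (fun n => gg T σ0 n ≤ 2 * ε) ⊆ S1 ∪ S2 := by
        intro n hn
        rcases le_or_gt (GG σ0 n) T with h | h
        · exact Finset.mem_union_left _ (by rw [hS1]; exact Finset.mem_filter.2 ⟨hn, h⟩)
        · exact Finset.mem_union_right _ (by rw [hS2]; exact Finset.mem_filter.2 ⟨(Finset.mem_filter.1 hn).1, h⟩)
      have h1 : (((Finset.range N).filter (fun n => gg T σ0 n ≤ 2 * ε)).card : ℝ) ≤ S1.card + S2.card := by
        have := (Finset.card_le_card hcov).trans (Finset.card_union_le _ _)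
        exact_mod_cast this
      have h2 : (S1.card : ℝ) ≤ K0 * (2 * ε) ^ A * MT T := by
        apply g1 σ0 hσ00 hσ0c.ge (by rw [hσ0c]; exact le_max_left _ _) S1
        intro n hn
        rw [hS1, Finset.mem_filter, Finset.mem_filter] at hn
        exact ⟨hn.2, hn.1.2⟩
      have h3 : (S2.card : ℝ) ≤ 4 * η * MT T := by
        have hsub : S2 ⊆ Finset.Ico ⌊(1 - 2 * η) * MT T⌋₊ N := by
          intro n hn
          rw [hS2, Finset.mem_filter, Finset.mem_range] at hn
          rw [Finset.mem_Ico]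
          refine ⟨?_, hn.1⟩
          by_contra hcon
          rw [not_le] at hcon
          obtain ⟨m, hm⟩ : ∃ m, m = ⌊(1 - 2 * η) * MT T⌋₊ := ⟨_, rfl⟩
          rw [← hm] at hcon
          have hm1 : (m : ℝ) ≤ (1 - 2 * η) * MT T := by
            rw [hm]; exact Nat.floor_le (mul_nonneg (by linarith) (by linarith))
          have hm2 : (1 - 2 * η) * MT T < m + 1 := by rw [hm]; exact Nat.lt_floor_add_one _
          obtain ⟨d1, d2⟩ := g2 σ0 hσ00.le (by rw [hσ0c]; exact hBc) m (by nlinarith) (by nlinarith)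
          rw [abs_le] at d1
          have h5 : lam T * GG σ0 m ≤ MT T := by
            have h6 : lam T * GG σ0 m ≤ (1 + 2 * η) * m := by linarith [d1.2]
            have h7 : (1 + 2 * η) * (m : ℝ) ≤ (1 + 2 * η) * ((1 - 2 * η) * MT T) :=
              mul_le_mul_of_nonneg_left hm1 (by linarith)
            have h8 : 0 ≤ η ^ 2 * MT T := by positivity
            nlinarith
          have h9 : GG σ0 n ≤ T := (GG_mono RH hσ00.le t2.le hcon.le).trans ((hGT _).2 h5)
          linarith [hn.2]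
        have h4 := Finset.card_le_card hsub
        rw [Nat.card_Ico] at h4
        have hm2 : (1 - 2 * η) * MT T < ⌊(1 - 2 * η) * MT T⌋₊ + 1 := Nat.lt_floor_add_one _
        rcases Nat.le_total ⌊(1 - 2 * η) * MT T⌋₊ N with h5 | h5
        · have h6 : S2.card + ⌊(1 - 2 * η) * MT T⌋₊ ≤ N := by omega
          have h7 : ((S2.card + ⌊(1 - 2 * η) * MT T⌋₊ : ℕ) : ℝ) ≤ N := by exact_mod_cast h6
          push_cast at h7
          linarith
        · have h6 : S2.card = 0 := by omega
          rw [h6]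
          simp
          positivity
      linarith
    have hcardS : (S.card : ℝ) = ((S.filter (fun n => N ≤ n)).card : ℝ) + ((S.filter (fun n => ¬ N ≤ n)).card : ℝ) := by
      have := Finset.card_filter_add_card_filter_not (s := S) (fun n => N ≤ n)
      exact_mod_cast this.symm
    have hfin : ε * ((S.filter (fun n => ¬ N ≤ n)).card : ℝ) ≤
        2 * ε * (K0 * (2 * ε) ^ A * MT T + 4 * η * MT T) + 3 * η * MT T := by
      have := mul_le_mul_of_nonneg_left hcount (show 0 ≤ 2 * ε by positivity)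
      linarith
    have hfin2 : ((S.filter (fun n => ¬ N ≤ n)).card : ℝ) ≤
        2 * (K0 * (2 * ε) ^ A * MT T + 4 * η * MT T) + 3 / 100 * ε ^ A * MT T := by
      have h1 : 3 * η * MT T = ε * (3 / 100 * ε ^ A * MT T) := by
        have : η = ε ^ A * ε / 100 := by linarith
        rw [this]
        ring
      have h2 : 2 * ε * (K0 * (2 * ε) ^ A * MT T + 4 * η * MT T) + 3 * η * MT T =
          ε * (2 * (K0 * (2 * ε) ^ A * MT T + 4 * η * MT T) + 3 / 100 * ε ^ A * MT T) := by
        rw [h1]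
        ring
      rw [h2] at hfin
      exact le_of_mul_le_mul_left hfin hε
    have hηA : η ≤ ε ^ A / 100 := by
      have : ε ^ A * ε ≤ ε ^ A * 1 := mul_le_mul_of_nonneg_left hε1 (by positivity)
      linarith
    have hηM : η * MT T ≤ ε ^ A / 100 * MT T := mul_le_mul_of_nonneg_right hηA (by linarith)
    have e1 : 2 * (K0 * (2 * ε) ^ A * MT T) = 2 ^ (A + 1) * K0 * ε ^ A * MT T := by
      rw [mul_pow, pow_succ]
      ring
    have e2 : (2 ^ (A + 1) * K0 + 20) * ε ^ A * MT T = 2 ^ (A + 1) * K0 * ε ^ A * MT T + 20 * (ε ^ A * MT T) := by ring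
    have e3 : 0 < ε ^ A * MT T := by positivity
    rw [e2, hcardS]
    nlinarith
  · filter_upwards [pos_idx RH (K := B) (η := 1 / 100) hB0 (by norm_num) le_rfl,
      MT_tendsto.eventually_ge_atTop 1, eventually_gt_atTop 0] with T g1 g2 g3 σ hσ hcσ hσB S hS
    have hsub : S ⊆ Finset.range (⌊2 * MT T⌋₊ + 1) := by
      intro n hn
      rw [Finset.mem_range, Nat.lt_succ_iff]
      exact Nat.le_floor ((g1 σ hσ.le (hσB.trans hB1) n).1 (by linarith [(hS n hn).1]))
    have h3 := Finset.card_le_card hsub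
    rw [Finset.card_range] at h3
    have h4 : (S.card : ℝ) ≤ 3 * MT T := by
      have h5 : ((⌊2 * MT T⌋₊ : ℕ) : ℝ) ≤ 2 * MT T := Nat.floor_le (by linarith)
      have h6 : (S.card : ℝ) ≤ ((⌊2 * MT T⌋₊ + 1 : ℕ) : ℝ) := by exact_mod_cast h3
      push_cast at h6
      linarith
    refine h4.trans ?_
    apply mul_le_mul_of_nonneg_right _ (by linarith)
    have h7 : (1 : ℝ) ≤ ε ^ A := one_le_pow₀ hε1.le
    have h8 : 0 < 2 ^ (A + 1) * K0 := by positivity
    nlinarith

end Pool.Agent.P8H8.PC
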