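import Pool.Agent.P8H8.PC.Blk

set_option autoImplicit false

/-!
# Small gaps up to the height `T`: all the dyadic blocks
-/

namespace Pool.Agent.P8H8.PC

open Filter Topology
open Pool.Agent.P8H8.HF

theorem small_gaps (hP : S_PF) (hH : S_HERG) (hTr : S_TRANS) (hMv : S_MOV) (hCl : S_CLUS) (RH : RiemannHypothesis) :
    ∃ M C : ℝ, 1 ≤ M ∧ 1 ≤ C ∧ ∀ (B c : ℝ) (k : ℕ), 1 ≤ B → 1 ≤ k → 2 * C ≤ k → 128 * M * B ≤ k →
      1000 * B ≤ k ^ 2 → ∀ᶠ T : ℝ in atTop, ∀ σ : ℝ, 0 < σ → c ≤ σ * Real.log T ^ 2 → σ * Real.log T ^ 2 ≤ B →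
      ∀ S : Finset ℕ, (∀ n ∈ S, GG σ n ≤ T ∧ (Real.log T * (GG σ (n + 1) - GG σ n)) ^ 2 < thr M (c / 4) k) →
      (S.card : ℝ) ≤ 82 * M * (C / k) ^ k * (T * Real.log T) := by
  classical
  obtain ⟨M, C, hM, hC, hb⟩ := blk hP hH hTr hMv hCl RH
  refine ⟨M, C, hM, hC, fun B c k hB hk hk1 hk2 hk3 => ?_⟩
  have hk0 : (0 : ℝ) < k := by exact_mod_cast hk
  obtain ⟨δ, hδ⟩ : ∃ δ, δ = (C / k) ^ k := ⟨_, rfl⟩
  have hδ0 : 0 < δ := by rw [hδ]; positivity
  rw [← hδ]
  obtain ⟨J, hJ⟩ := exists_pow_lt_of_lt_one hδ0 (show (1 / 2 : ℝ) < 1 by norm_num)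
  have hscale : ∀ j : ℕ, Tendsto (fun T : ℝ => T / 2 ^ j) atTop atTop := fun j =>
    tendsto_id.atTop_div_const (by positivity)
  have hblk : ∀ᶠ T : ℝ in atTop, ∀ j ∈ Finset.range J, ∀ σ : ℝ, 0 < σ →
      c / 4 ≤ σ * Real.log (T / 2 ^ (j + 1)) ^ 2 → σ * Real.log (T / 2 ^ (j + 1)) ^ 2 ≤ B →
      ∀ S : Finset ℕ, (∀ n ∈ S, T / 2 ^ (j + 1) < GG σ n ∧ GG σ n ≤ 2 * (T / 2 ^ (j + 1)) ∧
        (Real.log (T / 2 ^ (j + 1)) * (GG σ (n + 1) - GG σ n)) ^ 2 < thr M (c / 4) k) →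
      (S.card : ℝ) ≤ (80 * M * (C / k) ^ k + δ) * (T / 2 ^ (j + 1) * Real.log (T / 2 ^ (j + 1))) := by
    rw [Filter.eventually_all_finset]
    intro j _
    exact (hscale (j + 1)).eventually (hb B (c / 4) δ k hδ0 hB hk hk1 hk2 hk3)
  have hpos := (hscale J).eventually (pos_idx RH (K := B) (η := 1 / 100) (by linarith) (by norm_num) le_rfl)
  filter_upwards [hblk, hpos, time_ok (K3 := B) (by linarith), eventually_ge_atTop ((4 : ℝ) ^ (J + 1)),
    Real.tendsto_log_atTop.eventually_ge_atTop (10 / δ * 2 ^ J + 10), eventually_ge_atTop (1 : ℝ)] with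
    T g1 g2 g3 g4 g5 g6 σ hσ hc hσB S hS
  obtain ⟨t1, -, -⟩ := g3 σ hσ.le hσB
  obtain ⟨L, hL⟩ : ∃ L, L = Real.log T := ⟨_, rfl⟩
  have hT0 : 0 < T := by linarith
  have hδJ : 0 < 10 / δ * 2 ^ J := by positivity
  rw [← hL] at g5 hc hσB hS ⊢
  have hL10 : 10 ≤ L := by linarith
  have hL0 : 0 < L := by linarith
  have hmono := GG_mono RH hσ.le t1.le
  have hgap : ∀ n : ℕ, 0 ≤ GG σ (n + 1) - GG σ n := fun n => sub_nonneg.2 (hmono (Nat.le_succ n))
  -- logarithms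
  have hlog : ∀ j ≤ J, L / 2 ≤ Real.log (T / 2 ^ j) ∧ Real.log (T / 2 ^ j) ≤ L := by
    intro j hj
    have h2j : (2 : ℝ) ^ j ≤ 2 ^ J := pow_le_pow_right₀ (by norm_num) hj
    have h1 : (1 : ℝ) ≤ 2 ^ j := one_le_pow₀ (by norm_num)
    rw [Real.log_div hT0.ne' (by positivity), ← hL]
    have h3 : 0 ≤ Real.log ((2 : ℝ) ^ j) := Real.log_nonneg h1
    have h4 : Real.log ((2 : ℝ) ^ j) ≤ L / 2 := by
      have h5 : Real.log ((4 : ℝ) ^ (J + 1)) ≤ L := by
        rw [hL]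
        exact Real.log_le_log (by positivity) g4
      have h6 : Real.log ((4 : ℝ) ^ (J + 1)) = 2 * Real.log ((2 : ℝ) ^ (J + 1)) := by
        rw [show (4 : ℝ) = 2 ^ 2 by norm_num, ← pow_mul, mul_comm 2 (J + 1), pow_mul, Real.log_pow]
        norm_num
      have h7 : Real.log ((2 : ℝ) ^ j) ≤ Real.log ((2 : ℝ) ^ (J + 1)) :=
        Real.log_le_log (by positivity) (pow_le_pow_right₀ (by norm_num) (by omega))
      linarith
    constructor <;> linarith
  obtain ⟨Sj, hSj⟩ : ∃ Sj : ℕ → Finset ℕ, Sj = fun j =>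
      S.filter (fun n => T / 2 ^ (j + 1) < GG σ n ∧ GG σ n ≤ T / 2 ^ j) := ⟨_, rfl⟩
  obtain ⟨S0, hS0⟩ : ∃ S0, S0 = S.filter (fun n => GG σ n ≤ T / 2 ^ J) := ⟨_, rfl⟩
  have hcov : S ⊆ (Finset.range J).biUnion Sj ∪ S0 := by
    intro n hn
    rw [Finset.mem_union, Finset.mem_biUnion, hS0, Finset.mem_filter]
    by_contra hcon
    push Not at hcon
    obtain ⟨h1, h2⟩ := hcon
    have hall : ∀ j ≤ J, GG σ n ≤ T / 2 ^ j := by
      intro j
      induction j with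
      | zero =>
        intro _
        rw [pow_zero, div_one]
        exact (hS n hn).1
      | succ j ih =>
        intro hj
        by_contra h3
        rw [not_le] at h3
        apply h1 j (Finset.mem_range.2 (by omega))
        rw [hSj]
        exact Finset.mem_filter.2 ⟨hn, h3, ih (by omega)⟩
    have h4 := h2 hn
    linarith [hall J le_rfl]
  have hcard : (S.card : ℝ) ≤ (∑ j ∈ Finset.range J, ((Sj j).card : ℝ)) + S0.card := by
    have h1 := (Finset.card_le_card hcov).trans ((Finset.card_union_le _ _).trans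
      (Nat.add_le_add_right Finset.card_biUnion_le _))
    exact_mod_cast h1
  have hj : ∀ j ∈ Finset.range J, ((Sj j).card : ℝ) ≤ 81 * M * δ * (T * L) * (1 / 2) ^ (j + 1) := by
    intro j hj
    obtain ⟨l1, l2⟩ := hlog (j + 1) (by rw [Finset.mem_range] at hj; omega)
    obtain ⟨X, hX⟩ : ∃ X, X = T / 2 ^ (j + 1) := ⟨_, rfl⟩
    have hX2 : T / 2 ^ j = 2 * X := by rw [hX, pow_succ]; field_simp
    have hX0 : 0 < X := by rw [hX]; positivity
    rw [← hX] at l1 l2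
    have e1 : c / 4 ≤ σ * Real.log X ^ 2 := by
      have h1 : L ^ 2 / 4 ≤ Real.log X ^ 2 := by nlinarith
      have h2 : σ * (L ^ 2 / 4) ≤ σ * Real.log X ^ 2 := mul_le_mul_of_nonneg_left h1 hσ.le
      linarith
    have hlX0 : 0 ≤ Real.log X := by linarith
    have e2 : σ * Real.log X ^ 2 ≤ B := by
      have h1 : Real.log X ^ 2 ≤ L ^ 2 := pow_le_pow_left₀ hlX0 l2 2
      have h2 : σ * Real.log X ^ 2 ≤ σ * L ^ 2 := mul_le_mul_of_nonneg_left h1 hσ.le
      linarith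
    have h3 := g1 j hj σ hσ (by rw [← hX]; exact e1) (by rw [← hX]; exact e2) (Sj j) (by
      intro n hn
      rw [hSj, Finset.mem_filter] at hn
      rw [← hX, hX2] at hn
      rw [← hX]
      refine ⟨hn.2.1, hn.2.2, ?_⟩
      refine lt_of_le_of_lt ?_ (hS n hn.1).2
      apply pow_le_pow_left₀ (mul_nonneg hlX0 (hgap n))
      exact mul_le_mul_of_nonneg_right l2 (hgap n))
    rw [← hX, ← hδ] at h3
    refine h3.trans ?_
    have h4 : X * Real.log X ≤ (T * L) * (1 / 2) ^ (j + 1) := by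
      have h5 : X = T * (1 / 2) ^ (j + 1) := by
        rw [hX, one_div, inv_pow]
        rfl
      calc X * Real.log X ≤ X * L := mul_le_mul_of_nonneg_left l2 hX0.le
        _ = (T * L) * (1 / 2) ^ (j + 1) := by rw [h5]; ring
    have h6 : 80 * M * δ + δ ≤ 81 * M * δ := by nlinarith
    calc (80 * M * δ + δ) * (X * Real.log X) ≤ (80 * M * δ + δ) * ((T * L) * (1 / 2) ^ (j + 1)) :=
          mul_le_mul_of_nonneg_left h4 (by positivity)
      _ ≤ (81 * M * δ) * ((T * L) * (1 / 2) ^ (j + 1)) := mul_le_mul_of_nonneg_right h6 (by positivity)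
      _ = _ := by ring
  have hgeo : ∑ j ∈ Finset.range J, ((1 : ℝ) / 2) ^ (j + 1) ≤ 1 := by
    have h1 : ∑ j ∈ Finset.range J, ((1 : ℝ) / 2) ^ (j + 1) = 1 / 2 * ∑ j ∈ Finset.range J, ((1 : ℝ) / 2) ^ j := by
      rw [Finset.mul_sum]
      apply Finset.sum_congr rfl
      intro j _
      ring
    have h := Summable.sum_le_tsum (f := fun i : ℕ => ((1 : ℝ) / 2) ^ i) (Finset.range J)
      (fun i _ => by positivity) (summable_geometric_two)
    rw [tsum_geometric_two] at h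
    rw [h1]
    linarith
  have hsum : ∑ j ∈ Finset.range J, ((Sj j).card : ℝ) ≤ 81 * M * δ * (T * L) := by
    calc ∑ j ∈ Finset.range J, ((Sj j).card : ℝ)
        ≤ ∑ j ∈ Finset.range J, 81 * M * δ * (T * L) * (1 / 2) ^ (j + 1) := Finset.sum_le_sum hj
      _ = 81 * M * δ * (T * L) * ∑ j ∈ Finset.range J, (1 / 2) ^ (j + 1) := by rw [Finset.mul_sum]
      _ ≤ 81 * M * δ * (T * L) * 1 := mul_le_mul_of_nonneg_left hgeo (by positivity)
      _ = _ := mul_one _
  have hrest : (S0.card : ℝ) ≤ M * δ * (T * L) := by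
    obtain ⟨l1, l2⟩ := hlog J le_rfl
    obtain ⟨X, hX⟩ : ∃ X, X = T / 2 ^ J := ⟨_, rfl⟩
    rw [← hX] at l1 l2 g2
    have hX0 : 0 < X := by rw [hX]; positivity
    have e2 : σ * Real.log X ^ 2 ≤ B := by
      have h1 : Real.log X ^ 2 ≤ L ^ 2 := pow_le_pow_left₀ (by linarith) l2 2
      have h2 : σ * Real.log X ^ 2 ≤ σ * L ^ 2 := mul_le_mul_of_nonneg_left h1 hσ.le
      linarith
    have hsub : S0 ⊆ Finset.range (⌊2 * MT X⌋₊ + 1) := by
      intro n hn
      rw [hS0, Finset.mem_filter] at hn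
      rw [Finset.mem_range, Nat.lt_succ_iff]
      have h1 := (g2 σ hσ.le e2 n).1 (by rw [← hX] at hn; linarith [hn.2])
      exact Nat.le_floor h1
    have h3 := Finset.card_le_card hsub
    rw [Finset.card_range] at h3
    have hMT0 : 0 ≤ MT X := by
      unfold MT
      have : 0 ≤ Real.log X := by linarith
      positivity
    have h4 : (S0.card : ℝ) ≤ 2 * MT X + 1 := by
      have h5 : ((⌊2 * MT X⌋₊ : ℕ) : ℝ) ≤ 2 * MT X := Nat.floor_le (by positivity)
      have h6 : (S0.card : ℝ) ≤ ((⌊2 * MT X⌋₊ + 1 : ℕ) : ℝ) := by exact_mod_cast h3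
      push_cast at h6
      linarith
    have h7 : MT X ≤ 1 / 6 * (X * L) := by
      unfold MT
      have hpi := Real.pi_gt_three
      rw [div_le_iff₀ (by positivity)]
      have h8 : X * Real.log X ≤ X * L := mul_le_mul_of_nonneg_left l2 hX0.le
      have h9 : 0 ≤ X * L := by positivity
      nlinarith
    have h10 : X ≤ δ * T := by
      have : X = (1 / 2) ^ J * T := by rw [hX, one_div, inv_pow]; ring
      rw [this]
      exact mul_le_mul_of_nonneg_right hJ.le hT0.le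
    have h11 : (1 : ℝ) ≤ δ * (T * L) / 10 := by
      have h12 : 10 / δ * 2 ^ J ≤ L := by linarith
      have h13 : (1 : ℝ) ≤ 2 ^ J := one_le_pow₀ (by norm_num)
      have h14 : 10 / δ ≤ L := by
        have : 10 / δ * 1 ≤ 10 / δ * 2 ^ J := mul_le_mul_of_nonneg_left h13 (by positivity)
        linarith
      rw [div_le_iff₀ hδ0] at h14
      nlinarith
    have h15 : X * L ≤ δ * T * L := mul_le_mul_of_nonneg_right h10 hL0.le
    have h16 : δ * (T * L) ≤ M * δ * (T * L) := by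
      have : 0 ≤ δ * (T * L) := by positivity
      nlinarith
    nlinarith
  have e : 82 * M * δ * (T * L) = 81 * M * δ * (T * L) + M * δ * (T * L) := by ring
  rw [e]
  linarith

end Pool.Agent.P8H8.PC
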