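import Pool.Agent.P8H8.PC.Rare2
import Pool.Agent.P8H8.HF.Ga

set_option autoImplicit false

/-!
# A law that does not vanish faster than all powers at the origin can hold only at the time zero
-/

namespace Pool.Agent.P8H8.PC

open Filter Topology
open Pool.Agent.P8H8.HF

theorem ga_zero (hP : S_PF) (hH : S_HERG) (hTr : S_TRANS) (hMv : S_MOV) (hCl : S_CLUS) (RH : RiemannHypothesis)
    {D0 D1 : ℝ → ℝ} (hD : GD D0 D1) {A : ℕ} (hlow : ∃ᶠ x : ℝ in 𝓝[>] 0, x ^ A ≤ |1 + D1 x|) {τ : ℝ → ℝ}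
    (h0 : ∀ T, 0 ≤ τ T) (h8 : ∀ T, τ T < 1 / 8) (hGA : GA D1 τ) :
    Tendsto (fun T => τ T * Real.log T ^ 2) atTop (𝓝 0) := by
  classical
  obtain ⟨B, hB, hτB⟩ := ga_bdd RH hD h0 h8 hGA
  by_contra hnot
  rw [Metric.tendsto_nhds] at hnot
  push Not at hnot
  obtain ⟨c, hc, hfr⟩ := hnot
  have hfr' : ∃ᶠ T : ℝ in atTop, c ≤ τ T * Real.log T ^ 2 := by
    refine hfr.mono fun T hT => ?_
    rw [Real.dist_eq, sub_zero, abs_of_nonneg (mul_nonneg (h0 T) (by positivity))] at hT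
    exact hT
  obtain ⟨K, hK, hrare⟩ := rare1 hP hH hTr hMv hCl RH (A + 1) c hc
  -- a good level
  have hsm : ∀ᶠ x : ℝ in 𝓝[>] 0, x < 1 / (2 * K) := nhdsWithin_le_nhds (gt_mem_nhds (by positivity))
  obtain ⟨x, hx1, hx2, hx3⟩ := (hlow.and_eventually (hsm.and self_mem_nhdsWithin)).exists
  have hx0 : 0 < x := hx3
  have hm := hGA.mono
  have hge := hD.ge hm hx0.le
  rw [abs_of_nonneg (by linarith)] at hx1
  have hlim := hGA 0 x le_rfl hx0
  have hz1 := hD.z1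
  rw [hz1] at hlim
  have hxA : 0 < x ^ A := by positivity
  have hev : ∀ᶠ T : ℝ in atTop, x ^ A / 2 < (cnt (gg T (τ T)) (KK (τ T) T) 0 x : ℝ) / MT T := by
    have : x ^ A / 2 < D1 x - -1 := by linarith
    exact hlim.eventually (lt_mem_nhds this)
  have hτ0 : ∀ᶠ T : ℝ in atTop, 1 ≤ Real.log T := Real.tendsto_log_atTop.eventually_ge_atTop 1
  obtain ⟨T, hT1, hT2, hT3, hT4, hT5, hT6⟩ := (hfr'.and_eventually
    (hev.and ((hrare B x hx0).and (hτB.and (hτ0.and (MT_tendsto.eventually_gt_atTop 0)))))).exists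
  have hτpos : 0 < τ T := by
    rcases (h0 T).eq_or_lt with h | h
    · rw [← h, zero_mul] at hT1
      linarith
    · exact h
  have h9 := hT3 (τ T) hτpos hT1 hT4 ((Finset.range (KK (τ T) T)).filter (fun n => 0 < gg T (τ T) n ∧ gg T (τ T) n ≤ x))
    (by
      intro n hn
      rw [Finset.mem_filter, Finset.mem_range] at hn
      exact ⟨(KK_spec RH (h0 T) (h8 T).le T n).2 hn.1, hn.2.2⟩)
  rw [lt_div_iff₀ hT6] at hT2
  unfold cnt at hT2
  have h10 : K * x ^ (A + 1) ≤ x ^ A / 2 := by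
    rw [lt_div_iff₀ (by positivity)] at hx2
    rw [pow_succ]
    nlinarith
  have h11 : K * x ^ (A + 1) * MT T ≤ x ^ A / 2 * MT T := mul_le_mul_of_nonneg_right h10 hT6.le
  linarith

end Pool.Agent.P8H8.PC
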